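import Mathlib
import Pool.Graph.R_seed8.H373R2.T7.Cnt
import Pool.Graph.R_seed8.H373R2.T7.Crt

/-!
The model: independent residue classes modulo the primes of `P` are removed from a finite set `S`.
`rho P J` is the probability that all elements of `J` survive, `Phi P S u` is the expected value of
`(1 + u) ^ (number of survivors in S)`.
-/

set_option autoImplicit false

namespace Pool.Agent.H36.RW
open Finset

/-- number of residue classes mod p occupied by J -/
def nu (p : ℕ) (J : Finset ℕ) : ℕ := (J.image (fun h => h % p)).card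

/-- probability that all elements of `J` survive -/
noncomputable def rho (P J : Finset ℕ) : ℝ := ∏ p ∈ P, (1 - (nu p J : ℝ) / p)

/-- generating function of the number of survivors -/
noncomputable def Phi (P S : Finset ℕ) (u : ℝ) : ℝ := ∑ J ∈ S.powerset, u ^ J.card * rho P J

lemma Phi_empty (S : Finset ℕ) (u : ℝ) : Phi ∅ S u = (1 + u) ^ S.card := by
  have h := Finset.sum_pow_mul_eq_add_pow u 1 S
  unfold Phi rho
  simp only [prod_empty, mul_one]
  simp only [one_pow, mul_one] at h
  rw [h, add_comm]

lemma nu_le (p : ℕ) (J : Finset ℕ) : nu p J ≤ J.card := card_image_le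

lemma nu_le_p (p : ℕ) (hp : 0 < p) (J : Finset ℕ) : nu p J ≤ p := by
  unfold nu
  calc _ ≤ (range p).card := by
        apply card_le_card
        intro a ha
        obtain ⟨h, _, rfl⟩ := mem_image.1 ha
        exact mem_range.2 (Nat.mod_lt _ hp)
    _ = p := card_range p

lemma rho_nonneg (P J : Finset ℕ) (hP : ∀ p ∈ P, 0 < p) : 0 ≤ rho P J := by
  unfold rho
  apply prod_nonneg
  intro p hp
  have h0 := hP p hp
  have h1 : (nu p J : ℝ) / p ≤ 1 := by
    rw [div_le_one (by exact_mod_cast h0)]
    exact_mod_cast nu_le_p p h0 J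
  linarith

lemma nu_compl (p : ℕ) (hp : 0 < p) (J : Finset ℕ) :
    (((range p).filter (fun a => ∀ h ∈ J, h % p ≠ a)).card : ℝ) = p - nu p J := by
  have h1 : (range p).filter (fun a => ∀ h ∈ J, h % p ≠ a) = range p \ J.image (fun h => h % p) := by
    ext a
    simp only [mem_filter, mem_sdiff, mem_image, not_exists, not_and]
  have h2 : J.image (fun h => h % p) ⊆ range p := by
    intro a ha
    obtain ⟨h, _, rfl⟩ := mem_image.1 ha
    exact mem_range.2 (Nat.mod_lt _ hp)
  rw [h1, card_sdiff_of_subset h2, card_range, Nat.cast_sub]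
  · rfl
  · have := card_le_card h2
    rwa [card_range] at this

lemma Phi_insert (P S : Finset ℕ) (p : ℕ) (hpP : p ∉ P) (hp : 0 < p) (u : ℝ) :
    Phi (insert p P) S u = (1 / (p : ℝ)) * ∑ a ∈ range p, Phi P (S.filter (fun h => h % p ≠ a)) u := by
  classical
  have hp0 : (p : ℝ) ≠ 0 := by exact_mod_cast hp.ne'
  have h1 : ∀ a ∈ range p, Phi P (S.filter (fun h => h % p ≠ a)) u =
      ∑ J ∈ S.powerset, (if ∀ h ∈ J, h % p ≠ a then u ^ J.card * rho P J else 0) := by
    intro a _
    unfold Phi
    rw [← sum_filter]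
    apply sum_congr _ (fun _ _ => rfl)
    ext J
    simp only [mem_powerset, mem_filter, subset_iff]
    constructor
    · intro h
      exact ⟨fun x hx => (h hx).1, fun x hx => (h hx).2⟩
    · rintro ⟨h1, h2⟩ x hx
      exact ⟨h1 hx, h2 x hx⟩
  rw [sum_congr rfl h1, sum_comm, mul_sum]
  unfold Phi
  apply sum_congr rfl
  intro J _
  rw [← sum_filter, sum_const, nsmul_eq_mul, nu_compl p hp J]
  unfold rho
  rw [prod_insert hpP]
  field_simp

/-- all primes are larger than the elements of `S`: the number of survivors is dominated by a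
binomial distribution -/
lemma Phi_large (u : ℝ) (hu : -1 < u) (P : Finset ℕ) : ∀ S : Finset ℕ,
    (∀ p ∈ P, 2 ≤ p ∧ ∀ h ∈ S, h < p) →
    0 < 1 + u * ∏ p ∈ P, (1 - 1 / (p : ℝ)) ∧
    Phi P S u ≤ (1 + u * ∏ p ∈ P, (1 - 1 / (p : ℝ))) ^ S.card := by
  classical
  induction P using Finset.induction_on with
  | empty =>
    intro S _
    rw [Phi_empty]
    simp only [prod_empty, mul_one]
    exact ⟨by linarith, le_rfl⟩
  | insert p P hpP ih =>
    intro S hS
    have hp2 : 2 ≤ p := (hS p (mem_insert_self _ _)).1
    have hp0 : (0 : ℝ) < p := by exact_mod_cast (by omega : 0 < p)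
    have hpS : ∀ h ∈ S, h < p := (hS p (mem_insert_self _ _)).2
    rw [Phi_insert P S p hpP (by omega), prod_insert hpP]
    set W : ℝ := ∏ p ∈ P, (1 - 1 / (p : ℝ)) with hW
    have ihS := ih S (fun p' hp' => hS p' (mem_insert_of_mem hp'))
    set B : ℝ := 1 + u * W with hB
    have hB0 : 0 < B := ihS.1
    have hSp : S ⊆ range p := fun h hh => mem_range.2 (hpS h hh)
    have hSle : (S.card : ℝ) ≤ p := by
      have := card_le_card hSp
      rw [card_range] at this
      exact_mod_cast this
    -- the sets
    have h1 : ∀ a ∈ range p, Phi P (S.filter (fun h => h % p ≠ a)) u ≤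
        if a ∈ S then B ^ (S.card - 1) else B ^ S.card := by
      intro a ha
      have h2 := (ih (S.filter (fun h => h % p ≠ a)) (fun p' hp' =>
        ⟨(hS p' (mem_insert_of_mem hp')).1, fun h hh =>
          (hS p' (mem_insert_of_mem hp')).2 h (mem_filter.1 hh).1⟩)).2
      have h3 : S.filter (fun h => h % p ≠ a) = S.erase a := by
        ext h
        rw [mem_filter, mem_erase]
        constructor
        · rintro ⟨h4, h5⟩
          rw [Nat.mod_eq_of_lt (hpS h h4)] at h5
          exact ⟨h5, h4⟩
        · rintro ⟨h4, h5⟩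
          rw [Nat.mod_eq_of_lt (hpS h h5)]
          exact ⟨h5, h4⟩
      rw [h3] at h2 ⊢
      split_ifs with h4
      · rwa [card_erase_of_mem h4] at h2
      · rwa [erase_eq_of_notMem h4] at h2 ⊢
    have h2 : ∑ a ∈ range p, Phi P (S.filter (fun h => h % p ≠ a)) u ≤
        S.card * B ^ (S.card - 1) + (p - S.card) * B ^ S.card := by
      refine (sum_le_sum h1).trans ?_
      rw [sum_ite, sum_const, sum_const, nsmul_eq_mul, nsmul_eq_mul]
      have e1 : (range p).filter (fun a => a ∈ S) = S := by
        ext a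
        rw [mem_filter]
        exact ⟨fun h => h.2, fun h => ⟨hSp h, h⟩⟩
      have e2 : (((range p).filter (fun a => a ∉ S)).card : ℝ) = p - S.card := by
        have e3 : (range p).filter (fun a => a ∉ S) = range p \ S := by
          ext a
          simp only [mem_filter, mem_sdiff]
        rw [e3, card_sdiff_of_subset hSp, card_range, Nat.cast_sub]
        exact_mod_cast hSle
      rw [e1, e2]
    -- the comparison
    have hW0 : 0 ≤ W := by
      rw [hW]
      apply prod_nonneg
      intro p' hp'
      have : 2 ≤ p' := (hS p' (mem_insert_of_mem hp')).1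
      have h5 : (2 : ℝ) ≤ p' := by exact_mod_cast this
      have h6 : 1 / (p' : ℝ) ≤ 1 := by
        rw [div_le_one (by linarith)]
        linarith
      linarith
    have hpos : 0 < 1 + u * ((1 - 1 / (p : ℝ)) * W) := by
      have h5 : 0 ≤ 1 - 1 / (p : ℝ) ∧ 1 - 1 / (p : ℝ) ≤ 1 := by
        have h6 : 1 / (p : ℝ) ≤ 1 := by
          rw [div_le_one hp0]
          exact_mod_cast (by omega : 1 ≤ p)
        have h7 : 0 < 1 / (p : ℝ) := by positivity
        constructor <;> linarith
      set t := 1 - 1 / (p : ℝ)
      have h6 : 1 + u * (t * W) = (1 - t) + t * B := by rw [hB]; ring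
      rw [h6]
      rcases eq_or_lt_of_le h5.1 with h7 | h7
      · rw [← h7]; norm_num
      · have := mul_pos h7 hB0
        linarith [h5.2]
    refine ⟨hpos, ?_⟩
    set n := S.card with hn
    have h3 : (1 / (p : ℝ)) * (n * B ^ (n - 1) + (p - n) * B ^ n) ≤ (1 + u * ((1 - 1 / (p : ℝ)) * W)) ^ n := by
      have e1 : 1 + u * ((1 - 1 / (p : ℝ)) * W) = B * (1 + -((B - 1) / (B * p))) := by
        rw [hB] at *
        field_simp
        ring
      rw [e1, mul_pow]
      have h4 : (-2 : ℝ) ≤ -((B - 1) / (B * p)) := by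
        have h5 : (B - 1) / (B * p) ≤ 1 := by
          rw [div_le_one (by positivity)]
          have : (1 : ℝ) ≤ p := by exact_mod_cast (by omega : 1 ≤ p)
          nlinarith
        linarith
      have h5 := one_add_mul_le_pow h4 n
      have h6 := mul_le_mul_of_nonneg_left h5 (pow_pos hB0 n).le
      refine le_trans (le_of_eq ?_) h6
      rcases Nat.eq_zero_or_pos n with h7 | h7
      · rw [h7]
        simp
        field_simp
      · obtain ⟨m, hm⟩ : ∃ m, n = m + 1 := ⟨n - 1, by omega⟩
        rw [hm, Nat.add_sub_cancel, pow_succ]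
        push_cast
        field_simp
        ring
    refine le_trans ?_ h3
    exact mul_le_mul_of_nonneg_left h2 (by positivity)

/-- one more prime, with few elements in every class -/
lemma Phi_step (u g N : ℝ) (P S : Finset ℕ) (p : ℕ) (hpP : p ∉ P) (hp : 0 < p)
    (h : ∀ S' ⊆ S, Phi P S' u ≤ Real.exp (g * S'.card)) (hN : ∀ a ∈ range p,
      ((S.filter (fun h => h % p = a)).card : ℝ) ≤ N) (hgN : |g| * N ≤ 1) :
    Phi (insert p P) S u ≤ Real.exp ((g * (1 - 1 / (p : ℝ)) + g ^ 2 * N / p) * S.card) := by
  classical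
  have hp0 : (0 : ℝ) < p := by exact_mod_cast hp
  rw [Phi_insert P S p hpP hp]
  set c : ℕ → ℕ := fun a => (S.filter (fun h => h % p = a)).card with hc
  have hsum : ∑ a ∈ range p, c a = S.card := by
    rw [hc]
    symm
    apply card_eq_sum_card_fiberwise
    intro h _
    exact mem_coe.2 (mem_range.2 (Nat.mod_lt _ hp))
  have hsumR : ∑ a ∈ range p, (c a : ℝ) = S.card := by exact_mod_cast hsum
  have h1 : ∀ a ∈ range p, Phi P (S.filter (fun h => h % p ≠ a)) u ≤
      Real.exp (g * S.card) * (1 - g * c a + g ^ 2 * N * c a) := by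
    intro a ha
    have h2 := h (S.filter (fun h => h % p ≠ a)) (filter_subset _ _)
    refine h2.trans ?_
    have h3 : ((S.filter (fun h => h % p ≠ a)).card : ℝ) = S.card - c a := by
      have := card_filter_add_card_filter_not (s := S) (fun h => h % p = a)
      have h4 : ((S.filter (fun h => h % p = a)).card : ℝ) + ((S.filter (fun h => ¬ h % p = a)).card : ℝ) = S.card := by
        exact_mod_cast this
      have h5 : (c a : ℝ) = ((S.filter (fun h => h % p = a)).card : ℝ) := rfl
      have h6 : ((S.filter (fun h => h % p ≠ a)).card : ℝ) = ((S.filter (fun h => ¬ h % p = a)).card : ℝ) := rfl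
      rw [h5, h6]
      linarith
    rw [h3, mul_sub, sub_eq_add_neg, Real.exp_add]
    apply mul_le_mul_of_nonneg_left _ (Real.exp_pos _).le
    have hca : (c a : ℝ) ≤ N := hN a ha
    have hca0 : (0 : ℝ) ≤ c a := Nat.cast_nonneg _
    have h4 : |-(g * c a)| ≤ 1 := by
      rw [abs_neg, abs_mul, abs_of_nonneg hca0]
      exact (mul_le_mul_of_nonneg_left hca (abs_nonneg _)).trans hgN
    have h5 := (abs_le.1 (Real.abs_exp_sub_one_sub_id_le h4)).2
    have h6 : (-(g * c a)) ^ 2 ≤ g ^ 2 * N * c a := by
      have : (-(g * (c a : ℝ))) ^ 2 = g ^ 2 * (c a * c a) := by ring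
      rw [this, mul_assoc]
      apply mul_le_mul_of_nonneg_left _ (sq_nonneg _)
      exact mul_le_mul_of_nonneg_right hca hca0
    linarith
  have h2 : ∑ a ∈ range p, Phi P (S.filter (fun h => h % p ≠ a)) u ≤
      Real.exp (g * S.card) * (p - g * S.card + g ^ 2 * N * S.card) := by
    refine (sum_le_sum h1).trans (le_of_eq ?_)
    rw [← mul_sum]
    congr 1
    rw [sum_add_distrib, sum_sub_distrib, ← mul_sum, ← mul_sum, hsumR, sum_const, card_range]
    simp
  calc (1 / (p : ℝ)) * ∑ a ∈ range p, Phi P (S.filter (fun h => h % p ≠ a)) u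
      ≤ (1 / (p : ℝ)) * (Real.exp (g * S.card) * (p - g * S.card + g ^ 2 * N * S.card)) :=
        mul_le_mul_of_nonneg_left h2 (by positivity)
    _ = Real.exp (g * S.card) * ((-(g * S.card / p) + g ^ 2 * N * S.card / p) + 1) := by
        field_simp
        ring
    _ ≤ Real.exp (g * S.card) * Real.exp (-(g * S.card / p) + g ^ 2 * N * S.card / p) :=
        mul_le_mul_of_nonneg_left (Real.add_one_le_exp _) (Real.exp_pos _).le
    _ = _ := by
        rw [← Real.exp_add]
        congr 1
        ring

end Pool.Agent.H36.RW
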