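import Mathlib
import Pool.Agent.H36.RW.Model

/-!
The generating function in the model, with primes smaller than the length of the window.
-/

set_option autoImplicit false

namespace Pool.Agent.H36.RW
open Finset

/-- `∏ (1 - 1/p)` -/
noncomputable def Wp (P : Finset ℕ) : ℝ := ∏ p ∈ P, (1 - 1 / (p : ℝ))

lemma Wp_pos (P : Finset ℕ) (hP : ∀ p ∈ P, 2 ≤ p) : 0 < Wp P := by
  unfold Wp
  apply prod_pos
  intro p hp
  have h5 : (2 : ℝ) ≤ p := by exact_mod_cast hP p hp
  have h6 : 1 / (p : ℝ) ≤ 1 / 2 := one_div_le_one_div_of_le (by norm_num) h5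
  linarith

lemma Wp_le_one (P : Finset ℕ) (hP : ∀ p ∈ P, 2 ≤ p) : Wp P ≤ 1 := by
  unfold Wp
  apply prod_le_one
  · intro p hp
    have h5 : (2 : ℝ) ≤ p := by exact_mod_cast hP p hp
    have h6 : 1 / (p : ℝ) ≤ 1 / 2 := one_div_le_one_div_of_le (by norm_num) h5
    linarith
  · intro p hp
    have h5 : (2 : ℝ) ≤ p := by exact_mod_cast hP p hp
    have h6 : 0 < 1 / (p : ℝ) := by positivity
    linarith

lemma sum_inv_sq_aux (y T : ℕ) (hy : 1 ≤ y) : ∑ p ∈ Ioc y T, (1 : ℝ) / (p : ℝ) ^ 2 ≤ 1 / (y : ℝ) := by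
  rcases Nat.lt_or_ge T y with h | h
  · rw [Ioc_eq_empty (by omega), sum_empty]
    positivity
  have key : ∀ n : ℕ, ∑ p ∈ Ioc y (y + n), 1 / (p : ℝ) ^ 2 ≤ 1 / y - 1 / (y + n : ℝ) := by
    intro n
    induction n with
    | zero => simp
    | succ n ih =>
      rw [← add_assoc, sum_Ioc_succ_top (by omega)]
      have hy0 : (0 : ℝ) < y := by exact_mod_cast hy
      have hn0 : (0 : ℝ) ≤ n := Nat.cast_nonneg n
      have h1 : 1 / (((y + n + 1 : ℕ) : ℝ)) ^ 2 ≤ 1 / (y + n : ℝ) - 1 / (y + (n + 1 : ℕ) : ℝ) := by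
        push_cast
        rw [div_sub_div _ _ (by positivity) (by positivity), div_le_div_iff₀ (by positivity) (by positivity)]
        nlinarith [mul_nonneg hy0.le hn0]
      linarith
  obtain ⟨n, hn⟩ : ∃ n, T = y + n := ⟨T - y, by omega⟩
  rw [hn]
  refine (key n).trans ?_
  have : (0 : ℝ) ≤ 1 / (y + n : ℝ) := by positivity
  linarith

/-- adding the primes in `(y, T]` -/
lemma Phi_mid (u g0 γ : ℝ) (P2 : Finset ℕ) (y T : ℕ) (hy : 1 ≤ y) (hg0 : |g0| ≤ γ)
    (hγ : 8 * γ * T ≤ y) (P1 : Finset ℕ) : ∀ S : Finset ℕ, S ⊆ Icc 1 T →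
    (∀ p ∈ P1, p.Prime ∧ y < p ∧ p ≤ T ∧ p ∉ P2) → (∀ S' ⊆ S, Phi P2 S' u ≤ Real.exp (g0 * S'.card)) →
    Phi (P1 ∪ P2) S u ≤ Real.exp ((g0 * Wp P1 + ∑ p ∈ P1, 8 * γ ^ 2 * T / (p : ℝ) ^ 2) * S.card) := by
  classical
  induction P1 using Finset.induction_on with
  | empty =>
    intro S _ _ h
    simp only [empty_union, Wp, prod_empty, sum_empty, mul_one, add_zero]
    exact h S (Subset.refl _)
  | insert p P hpP ih =>
    intro S hST hP1 h
    have hp := hP1 p (mem_insert_self _ _)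
    have hP' : ∀ p' ∈ P, p'.Prime ∧ y < p' ∧ p' ≤ T ∧ p' ∉ P2 := fun p' hp' => hP1 p' (mem_insert_of_mem hp')
    rw [insert_union]
    have hγ0 : 0 ≤ γ := (abs_nonneg _).trans hg0
    have hp0 : (0 : ℝ) < p := by exact_mod_cast hp.1.pos
    have hy0 : (0 : ℝ) < y := by exact_mod_cast hy
    have hT0 : (0 : ℝ) ≤ T := Nat.cast_nonneg T
    set e : ℝ := ∑ p ∈ P, 8 * γ ^ 2 * T / (p : ℝ) ^ 2 with he
    have he0 : 0 ≤ e := sum_nonneg fun _ _ => by positivity
    have heγ : e ≤ γ := by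
      have h1 : e ≤ 8 * γ ^ 2 * T * (1 / y) := by
        calc e = 8 * γ ^ 2 * T * ∑ p ∈ P, 1 / (p : ℝ) ^ 2 := by
              rw [he, mul_sum]
              apply sum_congr rfl
              intro p _
              ring
          _ ≤ 8 * γ ^ 2 * T * ∑ p ∈ Ioc y T, 1 / (p : ℝ) ^ 2 := by
              apply mul_le_mul_of_nonneg_left _ (by positivity)
              apply sum_le_sum_of_subset_of_nonneg
              · intro p' hp'
                exact mem_Ioc.2 ⟨(hP' p' hp').2.1, (hP' p' hp').2.2.1⟩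
              · intro _ _ _
                positivity
          _ ≤ _ := mul_le_mul_of_nonneg_left (sum_inv_sq_aux y T hy) (by positivity)
      refine h1.trans ?_
      rw [mul_one_div, div_le_iff₀ hy0]
      nlinarith
    set g : ℝ := g0 * Wp P + e with hg
    have hWP := Wp_le_one P (fun p' hp' => (hP' p' hp').1.two_le)
    have hWP0 := Wp_pos P (fun p' hp' => (hP' p' hp').1.two_le)
    have hgγ : |g| ≤ 2 * γ := by
      rw [hg]
      have h1 : |g0 * Wp P| ≤ γ := by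
        rw [abs_mul, abs_of_pos hWP0]
        calc |g0| * Wp P ≤ |g0| * 1 := mul_le_mul_of_nonneg_left hWP (abs_nonneg _)
          _ ≤ γ := by rw [mul_one]; exact hg0
      calc |g0 * Wp P + e| ≤ |g0 * Wp P| + |e| := abs_add_le _ _
        _ ≤ γ + γ := add_le_add h1 (by rw [abs_of_nonneg he0]; exact heγ)
        _ = _ := by ring
    set N : ℝ := 2 * T / p with hN
    have hpT : (p : ℝ) ≤ T := by exact_mod_cast hp.2.2.1
    have hyp : (y : ℝ) < p := by exact_mod_cast hp.2.1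
    have hcl : ∀ a ∈ range p, ((S.filter (fun h => h % p = a)).card : ℝ) ≤ N := by
      intro a ha
      have h1 : (S.filter (fun h => h % p = a)).card ≤ ((Icc 1 T).filter (fun h => h ≡ a [MOD p])).card := by
        apply card_le_card
        intro h hh
        rw [mem_filter] at hh ⊢
        refine ⟨hST hh.1, ?_⟩
        unfold Nat.ModEq
        rw [hh.2, Nat.mod_eq_of_lt (mem_range.1 ha)]
      have h2 := (abs_le.1 (Pool.Agent.H373R2.T7.count_class T p a hp.1.one_le)).2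
      have h3 : ((S.filter (fun h => h % p = a)).card : ℝ) ≤ (((Icc 1 T).filter (fun h => h ≡ a [MOD p])).card : ℝ) := by
        exact_mod_cast h1
      have h4 : (1 : ℝ) ≤ T / p := by rwa [le_div_iff₀ hp0, one_mul]
      rw [hN]
      have h5 : (2 : ℝ) * T / p = T / p + T / p := by ring
      rw [h5]
      linarith
    have hgN : |g| * N ≤ 1 := by
      calc |g| * N ≤ (2 * γ) * (2 * T / p) := by
            apply mul_le_mul_of_nonneg_right hgγ
            rw [hN]; positivity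
        _ = 4 * γ * T / p := by ring
        _ ≤ 1 := by
            rw [div_le_one hp0]
            nlinarith [mul_nonneg hγ0 hT0]
    have hstep := Phi_step u g N (P ∪ P2) S p (by
      rw [mem_union, not_or]
      exact ⟨hpP, hp.2.2.2⟩) hp.1.pos (fun S' hS' => ih S' (hS'.trans hST) hP' (fun S'' hS'' => h S'' (hS''.trans hS'))) hcl hgN
    refine hstep.trans (Real.exp_le_exp.2 ?_)
    apply mul_le_mul_of_nonneg_right _ (Nat.cast_nonneg _)
    rw [sum_insert hpP]
    have e1 : Wp (insert p P) = (1 - 1 / (p : ℝ)) * Wp P := by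
      unfold Wp
      rw [prod_insert hpP]
    rw [e1]
    have h1 : g ^ 2 ≤ 4 * γ ^ 2 := by
      have := sq_le_sq' (by linarith [(abs_le.1 hgγ).1]) (abs_le.1 hgγ).2
      nlinarith
    have h2 : g ^ 2 * N / p ≤ 8 * γ ^ 2 * T / (p : ℝ) ^ 2 := by
      have h3 : g ^ 2 * N / p = g ^ 2 * (2 * T / (p : ℝ) ^ 2) := by
        rw [hN]; field_simp
      rw [h3]
      calc g ^ 2 * (2 * T / (p : ℝ) ^ 2) ≤ 4 * γ ^ 2 * (2 * T / (p : ℝ) ^ 2) :=
            mul_le_mul_of_nonneg_right h1 (by positivity)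
        _ = _ := by ring
    have h3 : g * (1 - 1 / (p : ℝ)) ≤ g0 * ((1 - 1 / (p : ℝ)) * Wp P) + e := by
      have h4 : g * (1 - 1 / (p : ℝ)) = g0 * ((1 - 1 / (p : ℝ)) * Wp P) + e * (1 - 1 / (p : ℝ)) := by
        rw [hg]; ring
      rw [h4]
      have h5 : e * (1 - 1 / (p : ℝ)) ≤ e * 1 := by
        apply mul_le_mul_of_nonneg_left _ he0
        have : 0 < 1 / (p : ℝ) := by positivity
        linarith
      linarith
    have he' : e = ∑ x ∈ P, 8 * γ ^ 2 * T / (x : ℝ) ^ 2 := he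
    linarith

/-- the generating function: final form -/
theorem Phi_final (u : ℝ) (hu : -1 < u) (hu2 : |u| ≤ 2) (P : Finset ℕ) (y T : ℕ) (hy : 1 ≤ y) (S : Finset ℕ)
    (hS : S ⊆ Icc 1 T) (hP : ∀ p ∈ P, p.Prime ∧ y < p)
    (hT : 16 * Wp (P.filter (fun p => T < p)) * T ≤ Wp (P.filter (fun p => p ≤ T)) * y) :
    Phi P S u ≤ Real.exp (S.card * Wp P * (u + u ^ 2)) := by
  classical
  set P1 := P.filter (fun p => p ≤ T) with hP1
  set P2 := P.filter (fun p => T < p) with hP2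
  have hPu : P = P1 ∪ P2 := by
    ext p
    rw [mem_union, hP1, hP2, mem_filter, mem_filter]
    constructor
    · intro h
      rcases Nat.lt_or_ge T p with h1 | h1
      · exact Or.inr ⟨h, h1⟩
      · exact Or.inl ⟨h, h1⟩
    · rintro (h | h)
      · exact h.1
      · exact h.1
  have hd : Disjoint P1 P2 := by
    rw [disjoint_left]
    intro p h1 h2
    rw [hP1, mem_filter] at h1
    rw [hP2, mem_filter] at h2
    omega
  have hW : Wp P = Wp P1 * Wp P2 := by
    unfold Wp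
    conv_lhs => rw [hPu]
    rw [prod_union hd]
  have h1P1 : ∀ p ∈ P1, p.Prime ∧ y < p ∧ p ≤ T ∧ p ∉ P2 := by
    intro p hp
    refine ⟨(hP p (mem_filter.1 hp).1).1, (hP p (mem_filter.1 hp).1).2, (mem_filter.1 hp).2, ?_⟩
    exact disjoint_left.1 hd hp
  have hW1 := Wp_pos P1 (fun p hp => (h1P1 p hp).1.two_le)
  have hW1' := Wp_le_one P1 (fun p hp => (h1P1 p hp).1.two_le)
  have hP2p : ∀ p ∈ P2, p.Prime := fun p hp => (hP p (mem_filter.1 hp).1).1
  have hW2 := Wp_pos P2 (fun p hp => (hP2p p hp).two_le)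
  have hT0 : (0 : ℝ) ≤ T := Nat.cast_nonneg T
  have hy0 : (0 : ℝ) < y := by exact_mod_cast hy
  set γ : ℝ := |u| * Wp P2 with hγ
  have hγ0 : 0 ≤ γ := by rw [hγ]; positivity
  have hγ2 : γ ≤ 2 * Wp P2 := mul_le_mul_of_nonneg_right hu2 hW2.le
  have hγT : 8 * γ * T ≤ y := by
    calc 8 * γ * T ≤ 8 * (2 * Wp P2) * T := by gcongr
      _ = 16 * Wp P2 * T := by ring
      _ ≤ Wp P1 * y := hT
      _ ≤ 1 * y := mul_le_mul_of_nonneg_right hW1' hy0.le
      _ = y := one_mul _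
  have h2 : ∀ S' ⊆ S, Phi P2 S' u ≤ Real.exp (u * Wp P2 * S'.card) := by
    intro S' hS'
    have h3 := Phi_large u hu P2 S' (fun p hp => ⟨(hP2p p hp).two_le, fun h hh => by
      have h4 := (mem_Icc.1 (hS (hS' hh))).2
      have h5 := (mem_filter.1 hp).2
      omega⟩)
    refine h3.2.trans ?_
    have h4 : 1 + u * Wp P2 ≤ Real.exp (u * Wp P2) := by
      have := Real.add_one_le_exp (u * Wp P2)
      linarith
    calc (1 + u * ∏ p ∈ P2, (1 - 1 / (p : ℝ))) ^ S'.card ≤ (Real.exp (u * Wp P2)) ^ S'.card :=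
          pow_le_pow_left₀ h3.1.le h4 _
      _ = _ := by rw [← Real.exp_nat_mul]; ring_nf
  have h3 := Phi_mid u (u * Wp P2) γ P2 y T hy (by rw [hγ, abs_mul, abs_of_pos hW2]) hγT P1 S hS h1P1 h2
  rw [← hPu] at h3
  refine h3.trans (Real.exp_le_exp.2 ?_)
  have h4 : ∑ p ∈ P1, 8 * γ ^ 2 * T / (p : ℝ) ^ 2 ≤ u ^ 2 * (Wp P1 * Wp P2) := by
    calc ∑ p ∈ P1, 8 * γ ^ 2 * T / (p : ℝ) ^ 2 = 8 * γ ^ 2 * T * ∑ p ∈ P1, 1 / (p : ℝ) ^ 2 := by
          rw [mul_sum]
          apply sum_congr rfl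
          intro p _
          ring
      _ ≤ 8 * γ ^ 2 * T * ∑ p ∈ Ioc y T, 1 / (p : ℝ) ^ 2 := by
          apply mul_le_mul_of_nonneg_left _ (by positivity)
          apply sum_le_sum_of_subset_of_nonneg
          · intro p' hp'
            exact mem_Ioc.2 ⟨(h1P1 p' hp').2.1, (h1P1 p' hp').2.2.1⟩
          · intro _ _ _
            positivity
      _ ≤ 8 * γ ^ 2 * T * (1 / y) := mul_le_mul_of_nonneg_left (sum_inv_sq_aux y T hy) (by positivity)
      _ = u ^ 2 * Wp P2 * (8 * Wp P2 * T / y) := by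
          rw [hγ, mul_pow, sq_abs]
          ring
      _ ≤ u ^ 2 * Wp P2 * Wp P1 := by
          apply mul_le_mul_of_nonneg_left _ (by positivity)
          rw [div_le_iff₀ hy0]
          nlinarith [mul_nonneg hW2.le hT0]
      _ = _ := by ring
  have h5 : (0 : ℝ) ≤ S.card := Nat.cast_nonneg _
  rw [hW]
  calc (u * Wp P2 * Wp P1 + ∑ p ∈ P1, 8 * γ ^ 2 * T / (p : ℝ) ^ 2) * S.card
      ≤ (u * Wp P2 * Wp P1 + u ^ 2 * (Wp P1 * Wp P2)) * S.card := by
        apply mul_le_mul_of_nonneg_right _ h5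
        linarith
    _ = _ := by ring

end Pool.Agent.H36.RW
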