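import Mathlib
import Pool.Agent.H36.RW.Model2
import Pool.Agent.H36.RW.FL
import Pool.Graph.R_seed8.H373R2.T7.LamZ

/-!
Counting the `l` (in a full period, or in an interval) for which no `q l + r + h`, `h ∈ J`, is
divisible by a prime of `P`.
-/

set_option autoImplicit false

namespace Pool.Agent.H36.RW
open Finset Pool.Agent.H373R2.T7

lemma class_card (p q r : ℕ) (hp : p.Prime) (hpq : ¬ p ∣ q) (J : Finset ℕ) :
    ((range p).filter (fun a => ∃ h ∈ J, p ∣ q * a + r + h)).card = nu p J := by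
  classical
  have : Fact p.Prime := ⟨hp⟩
  have : NeZero p := ⟨hp.ne_zero⟩
  have hq : (q : ZMod p) ≠ 0 := by
    intro h
    exact hpq ((ZMod.natCast_eq_zero_iff q p).1 h)
  unfold nu
  apply card_bij (fun a _ => (-((q * a + r : ℕ) : ZMod p)).val)
  · intro a ha
    rw [mem_filter] at ha
    obtain ⟨_, h, hh, hd⟩ := ha
    rw [mem_image]
    refine ⟨h, hh, ?_⟩
    have h1 : ((q * a + r + h : ℕ) : ZMod p) = 0 := (ZMod.natCast_eq_zero_iff _ p).2 hd
    have h2 : -((q * a + r : ℕ) : ZMod p) = (h : ZMod p) := by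
      push_cast at h1 ⊢
      linear_combination -h1
    rw [h2, ZMod.val_natCast]
  · intro a ha b hb hab
    rw [mem_filter, mem_range] at ha hb
    have h1 := ZMod.val_injective p hab
    have h2 : (q : ZMod p) * (a : ZMod p) = (q : ZMod p) * (b : ZMod p) := by
      push_cast at h1
      linear_combination -h1
    have h3 := mul_left_cancel₀ hq h2
    have h4 : ((a : ZMod p)).val = ((b : ZMod p)).val := by rw [h3]
    rwa [ZMod.val_natCast, ZMod.val_natCast, Nat.mod_eq_of_lt ha.1, Nat.mod_eq_of_lt hb.1] at h4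
  · intro b hb
    obtain ⟨h, hh, rfl⟩ := mem_image.1 hb
    refine ⟨((-((r + h : ℕ) : ZMod p)) * (q : ZMod p)⁻¹).val, ?_, ?_⟩
    · rw [mem_filter, mem_range]
      refine ⟨ZMod.val_lt _, h, hh, ?_⟩
      rw [← ZMod.natCast_eq_zero_iff]
      push_cast
      rw [ZMod.natCast_zmod_val]
      field_simp
      ring
    · have h1 : -((q * ((-((r + h : ℕ) : ZMod p)) * (q : ZMod p)⁻¹).val + r : ℕ) : ZMod p) = (h : ZMod p) := by
        push_cast
        rw [ZMod.natCast_zmod_val]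
        field_simp
        ring
      simp only [h1, ZMod.val_natCast]

lemma dvd_mod_lin (p q r l h : ℕ) : p ∣ q * l + r + h ↔ p ∣ q * (l % p) + r + h := by
  have h1 : q * l + r + h ≡ q * (l % p) + r + h [MOD p] :=
    Nat.ModEq.add_right _ (Nat.ModEq.add_right _ (Nat.ModEq.mul_left _ (Nat.mod_modEq l p).symm))
  constructor
  · intro h2
    exact (Nat.modEq_zero_iff_dvd.1 (h1.symm.trans (Nat.modEq_zero_iff_dvd.2 h2)))
  · intro h2
    exact (Nat.modEq_zero_iff_dvd.1 (h1.trans (Nat.modEq_zero_iff_dvd.2 h2)))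

/-- full period -/
lemma per_count (q r : ℕ) (P J : Finset ℕ) (hP : ∀ p ∈ P, p.Prime ∧ ¬ p ∣ q) :
    (((range (∏ p ∈ P, p)).filter (fun l => ∀ p ∈ P, ∀ h ∈ J, ¬ p ∣ q * l + r + h)).card : ℝ) =
      ((∏ p ∈ P, p : ℕ) : ℝ) * rho P J := by
  classical
  have h1 := crt_card (fun p a => ∀ h ∈ J, ¬ p ∣ q * a + r + h) P (fun p hp => (hP p hp).1)
  have e1 : (range (∏ p ∈ P, p)).filter (fun l => ∀ p ∈ P, ∀ h ∈ J, ¬ p ∣ q * l + r + h) =
      (range (∏ p ∈ P, p)).filter (fun n => ∀ p ∈ P, ∀ h ∈ J, ¬ p ∣ q * (n % p) + r + h) := by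
    apply filter_congr
    intro l _
    constructor
    · intro h p hp x hx hd
      exact h p hp x hx ((dvd_mod_lin p q r l x).2 hd)
    · intro h p hp x hx hd
      exact h p hp x hx ((dvd_mod_lin p q r l x).1 hd)
  rw [e1, h1]
  push_cast
  unfold rho
  rw [← prod_mul_distrib]
  apply prod_congr rfl
  intro p hp
  have hp0 : (p : ℝ) ≠ 0 := by exact_mod_cast (hP p hp).1.ne_zero
  have h2 := class_card p q r (hP p hp).1 (hP p hp).2 J
  have h3 := card_filter_add_card_filter_not (s := range p) (fun a => ∃ h ∈ J, p ∣ q * a + r + h)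
  rw [h2, card_range] at h3
  have h4 : (range p).filter (fun a => ¬ ∃ h ∈ J, p ∣ q * a + r + h) =
      (range p).filter (fun a => ∀ h ∈ J, ¬ p ∣ q * a + r + h) := by
    apply filter_congr
    intro a _
    push Not
    rfl
  rw [h4] at h3
  have h5 : (nu p J : ℝ) + (((range p).filter (fun a => ∀ h ∈ J, ¬ p ∣ q * a + r + h)).card : ℝ) = p := by
    exact_mod_cast h3
  field_simp
  linarith

/-- intervals -/
theorem int_count (C0 : ℕ) (hFL : ∀ (κ b J z0 : ℕ) (P : Finset ℕ) (g : ℕ → ℝ),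
  C0 * κ ≤ b → 2 ≤ b → 2 * κ + 10 ≤ z0 → (∀ p ∈ P, p.Prime ∧ z0 < p ∧ p ≤ 2 ^ 2 ^ J) →
  (∀ p ∈ P, 0 ≤ g p ∧ g p ≤ κ / ((p : ℝ) - 1)) →
  ∀ (Ω : Finset ℕ) (w : ℕ → ℝ) (hit : ℕ → ℕ → Prop) [∀ a b, Decidable (hit a b)] (A : ℝ) (err : Finset ℕ → ℝ),
    (∀ m ∈ Ω, 0 ≤ w m) → 0 ≤ A →
    (∀ T ⊆ P, ∏ p ∈ T, p ≤ (2 ^ 2 ^ J) ^ (10 * b) →
      |∑ m ∈ Ω.filter (fun m => ∀ p ∈ T, hit p m), w m - A * ∏ p ∈ T, g p| ≤ err T) →
    |∑ m ∈ Ω.filter (fun m => ∀ p ∈ P, ¬ hit p m), w m - A * ∏ p ∈ P, (1 - g p)| ≤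
      (1 / 2 : ℝ) ^ b * (A * ∏ p ∈ P, (1 - g p)) +
        ((J : ℝ) + 2) *
          ∑ T ∈ P.powerset.filter (fun T : Finset ℕ => ∏ p ∈ T, p ≤ (2 ^ 2 ^ J) ^ (10 * b)), err T)
    (κ b Jd z0 q r : ℕ) (P J : Finset ℕ) (hκ : C0 * κ ≤ b) (hb : 2 ≤ b) (hz0 : 2 * κ + 10 ≤ z0)
    (hP : ∀ p ∈ P, p.Prime ∧ z0 < p ∧ p ≤ 2 ^ 2 ^ Jd) (hPq : ∀ p ∈ P, ¬ p ∣ q) (hJ : J.card ≤ κ) (X : ℕ) :
    |(((Icc 1 X).filter (fun l => ∀ p ∈ P, ∀ h ∈ J, ¬ p ∣ q * l + r + h)).card : ℝ) - X * rho P J| ≤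
      (1 / 2 : ℝ) ^ b * (X * rho P J) + ((Jd : ℝ) + 2) * (((2 : ℝ) ^ 2 ^ Jd) ^ (10 * b)) ^ 2 := by
  classical
  set D : ℕ := (2 ^ 2 ^ Jd) ^ (10 * b) with hD
  have key := hFL κ b Jd z0 P (fun p => (nu p J : ℝ) / p) hκ hb hz0 hP (by
      intro p hp
      have hp1 : (1 : ℝ) < p := by exact_mod_cast (hP p hp).1.one_lt
      refine ⟨by positivity, ?_⟩
      apply div_le_div₀ (Nat.cast_nonneg _) _ (by linarith) (by linarith)
      exact_mod_cast (nu_le p J).trans hJ) (Icc 1 X) (fun _ => (1 : ℝ))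
    (fun p l => ∃ h ∈ J, p ∣ q * l + r + h) (X : ℝ) (fun _ => (D : ℝ)) (fun _ _ => zero_le_one) (Nat.cast_nonneg _) (by
      intro T hT hTD
      have hTp : ∀ p ∈ T, p.Prime := fun p hp => (hP p (hT hp)).1
      have h3 := count_sys (fun p a => ∃ h ∈ J, p ∣ q * a + r + h) X T hTp 1 le_rfl (fun p hp hd =>
        (hTp p hp).one_lt.ne' (Nat.dvd_one.1 hd)) 0
      have e2 : ∏ p ∈ T, ((((range p).filter (fun a => ∃ h ∈ J, p ∣ q * a + r + h)).card : ℝ) / p) =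
          ∏ p ∈ T, ((nu p J : ℝ) / p) := by
        apply prod_congr rfl
        intro p hp
        rw [class_card p q r (hTp p hp) (hPq p (hT hp)) J]
      have e4 : ∏ p ∈ T, (((range p).filter (fun a => ∃ h ∈ J, p ∣ q * a + r + h)).card : ℝ) ≤ D := by
        have h5 : ∏ p ∈ T, (((range p).filter (fun a => ∃ h ∈ J, p ∣ q * a + r + h)).card : ℝ) ≤ ∏ p ∈ T, (p : ℝ) := by
          apply prod_le_prod (fun _ _ => Nat.cast_nonneg _)
          intro p hp
          rw [class_card p q r (hTp p hp) (hPq p (hT hp)) J]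
          exact_mod_cast nu_le_p p (hTp p hp).pos J
        refine h5.trans ?_
        have h6 : ((∏ p ∈ T, p : ℕ) : ℝ) ≤ D := by exact_mod_cast hTD
        push_cast at h6
        exact h6
      rw [e2, Nat.cast_one, div_one] at h3
      have e5 : ∑ m ∈ (Icc 1 X).filter (fun m => ∀ p ∈ T, ∃ h ∈ J, p ∣ q * m + r + h), (1 : ℝ) =
          (((Icc 1 X).filter (fun n => n ≡ 0 [MOD 1] ∧ ∀ p ∈ T, ∃ h ∈ J, p ∣ q * (n % p) + r + h)).card : ℝ) := by
        rw [sum_const, nsmul_eq_mul, mul_one]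
        congr 2
        apply filter_congr
        intro n _
        constructor
        · intro h6
          refine ⟨Nat.modEq_one, fun p hp => ?_⟩
          obtain ⟨h, hh, hd⟩ := h6 p hp
          exact ⟨h, hh, (dvd_mod_lin p q r n h).1 hd⟩
        · rintro ⟨_, h5⟩ p hp
          obtain ⟨h, hh, hd⟩ := h5 p hp
          exact ⟨h, hh, (dvd_mod_lin p q r n h).2 hd⟩
      rw [e5]
      exact h3.trans e4)
  have f1 : ∑ m ∈ (Icc 1 X).filter (fun m => ∀ p ∈ P, ¬ ∃ h ∈ J, p ∣ q * m + r + h), (1 : ℝ) =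
      (((Icc 1 X).filter (fun l => ∀ p ∈ P, ∀ h ∈ J, ¬ p ∣ q * l + r + h)).card : ℝ) := by
    rw [sum_const, nsmul_eq_mul, mul_one]
    congr 2
    apply filter_congr
    intro n _
    push Not
    rfl
  rw [f1] at key
  have f2 : ∏ p ∈ P, (1 - (nu p J : ℝ) / p) = rho P J := rfl
  rw [f2] at key
  refine key.trans ?_
  gcongr
  rw [sum_const, nsmul_eq_mul]
  have hcard : (P.powerset.filter (fun T : Finset ℕ => ∏ p ∈ T, p ≤ D)).card ≤ D := by
    calc _ ≤ (Icc 1 D).card := by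
          apply card_le_card_of_injOn (fun T : Finset ℕ => ∏ p ∈ T, p)
          · intro T hT
            rw [mem_coe, mem_filter, mem_powerset] at hT
            have h5 : 1 ≤ ∏ p ∈ T, p := Nat.pos_of_ne_zero (prod_ne_zero_iff.2 fun p hp => (hP p (hT.1 hp)).1.ne_zero)
            exact mem_coe.2 (mem_Icc.2 ⟨h5, hT.2⟩)
          · intro T hT T' hT' h
            rw [mem_coe, mem_filter, mem_powerset] at hT hT'
            exact prod_inj T T' (fun p hp => (hP p (hT.1 hp)).1) (fun p hp => (hP p (hT'.1 hp)).1) h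
      _ = D := by rw [Nat.card_Icc]; omega
  have hD' : (D : ℝ) = ((2 : ℝ) ^ 2 ^ Jd) ^ (10 * b) := by rw [hD]; push_cast; rfl
  rw [← hD', pow_two]
  exact mul_le_mul_of_nonneg_right (by exact_mod_cast hcard) (Nat.cast_nonneg _)

end Pool.Agent.H36.RW
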