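import Mathlib
import Pool.Agent.H36.RW.Count

/-!
Moments of the number of survivors, over a full period and over an interval.
-/

set_option autoImplicit false

namespace Pool.Agent.H36.RW
open Finset Pool.Agent.H373R2.T7

/-- the number of `h ∈ S` for which `q l + r + h` has no prime factor in `P` -/
def XX (q r : ℕ) (P S : Finset ℕ) (l : ℕ) : ℕ := (S.filter (fun h => ∀ p ∈ P, ¬ p ∣ q * l + r + h)).card

/-- the number of `l ∈ Ω` for which no `q l + r + h`, `h ∈ J`, has a prime factor in `P` -/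
def NN (q r : ℕ) (P : Finset ℕ) (Ω J : Finset ℕ) : ℕ :=
  (Ω.filter (fun l => ∀ p ∈ P, ∀ h ∈ J, ¬ p ∣ q * l + r + h)).card

lemma mom_sum (q r : ℕ) (P S Ω : Finset ℕ) (i : ℕ) :
    ∑ l ∈ Ω, (XX q r P S l : ℝ) ^ i =
      ∑ f ∈ Fintype.piFinset (fun _ : Fin i => S), (NN q r P Ω (univ.image f) : ℝ) := by
  have h1 : ∀ l ∈ Ω, (XX q r P S l : ℝ) ^ i = ∑ f ∈ Fintype.piFinset (fun _ : Fin i => S),
      (if ∀ p ∈ P, ∀ h ∈ univ.image f, ¬ p ∣ q * l + r + h then (1 : ℝ) else 0) := by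
    intro l _
    have h2 : (XX q r P S l) ^ i = (Fintype.piFinset (fun _ : Fin i => S.filter (fun h => ∀ p ∈ P, ¬ p ∣ q * l + r + h))).card := by
      rw [Fintype.card_piFinset, prod_const, card_univ, Fintype.card_fin]
      rfl
    set G := Fintype.piFinset (fun _ : Fin i => S.filter (fun h => ∀ p ∈ P, ¬ p ∣ q * l + r + h)) with hG
    have hmem : ∀ f : Fin i → ℕ, f ∈ G ↔ f ∈ Fintype.piFinset (fun _ : Fin i => S) ∧
        ∀ p ∈ P, ∀ h ∈ univ.image f, ¬ p ∣ q * l + r + h := by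
      intro f
      rw [hG, Fintype.mem_piFinset, Fintype.mem_piFinset]
      constructor
      · intro h
        refine ⟨fun a => (mem_filter.1 (h a)).1, ?_⟩
        intro p hp x hx
        obtain ⟨a, _, rfl⟩ := mem_image.1 hx
        exact (mem_filter.1 (h a)).2 p hp
      · rintro ⟨h, h'⟩ a
        rw [mem_filter]
        exact ⟨h a, fun p hp => h' p hp (f a) (mem_image_of_mem f (mem_univ a))⟩
    have hGS : G ⊆ Fintype.piFinset (fun _ : Fin i => S) := fun f hf => ((hmem f).1 hf).1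
    have h4 : ((G.card : ℕ) : ℝ) = ∑ f ∈ G, (1 : ℝ) := by simp
    have h5 : (XX q r P S l : ℝ) ^ i = (G.card : ℝ) := by exact_mod_cast h2
    rw [h5, h4]
    have h6 : ∑ f ∈ G, (1 : ℝ) = ∑ f ∈ G,
        (if ∀ p ∈ P, ∀ h ∈ univ.image f, ¬ p ∣ q * l + r + h then (1 : ℝ) else 0) := by
      apply sum_congr rfl
      intro f hf
      rw [if_pos ((hmem f).1 hf).2]
    rw [h6]
    apply sum_subset hGS
    intro f hf hf'
    rw [if_neg]
    intro h7
    exact hf' ((hmem f).2 ⟨hf, h7⟩)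
  rw [sum_congr rfl h1, sum_comm]
  apply sum_congr rfl
  intro f _
  rw [← sum_filter, sum_const, nsmul_eq_mul, mul_one]
  rfl

lemma gen_sum (q r : ℕ) (P S Ω : Finset ℕ) (u : ℝ) :
    ∑ l ∈ Ω, (1 + u) ^ (XX q r P S l) = ∑ J ∈ S.powerset, u ^ J.card * (NN q r P Ω J : ℝ) := by
  classical
  have h1 : ∀ l ∈ Ω, (1 + u) ^ (XX q r P S l) = ∑ J ∈ S.powerset,
      (if ∀ p ∈ P, ∀ h ∈ J, ¬ p ∣ q * l + r + h then u ^ J.card else 0) := by
    intro l _
    have h2 := Finset.sum_pow_mul_eq_add_pow u 1 (S.filter (fun h => ∀ p ∈ P, ¬ p ∣ q * l + r + h))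
    simp only [one_pow, mul_one] at h2
    unfold XX
    rw [add_comm 1 u, ← h2, ← sum_filter]
    apply sum_congr _ (fun _ _ => rfl)
    ext J
    simp only [mem_powerset, mem_filter, subset_iff]
    constructor
    · intro h
      exact ⟨fun x hx => (h hx).1, fun p hp x hx => (h hx).2 p hp⟩
    · rintro ⟨h1, h2⟩ x hx
      exact ⟨h1 hx, fun p hp => h2 p hp x hx⟩
  rw [sum_congr rfl h1, sum_comm]
  apply sum_congr rfl
  intro J _
  rw [← sum_filter, sum_const, nsmul_eq_mul, mul_comm]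
  rfl

lemma per_NN (q r : ℕ) (P J : Finset ℕ) (hP : ∀ p ∈ P, p.Prime ∧ ¬ p ∣ q) :
    (NN q r P (range (∏ p ∈ P, p)) J : ℝ) = ((∏ p ∈ P, p : ℕ) : ℝ) * rho P J := per_count q r P J hP

/-- the generating function over a full period -/
lemma per_gen (q r : ℕ) (P S : Finset ℕ) (hP : ∀ p ∈ P, p.Prime ∧ ¬ p ∣ q) (u : ℝ) :
    ∑ l ∈ range (∏ p ∈ P, p), (1 + u) ^ (XX q r P S l) = ((∏ p ∈ P, p : ℕ) : ℝ) * Phi P S u := by
  rw [gen_sum]
  unfold Phi
  rw [mul_sum]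
  apply sum_congr rfl
  intro J _
  rw [per_NN q r P J hP]
  ring

/-- exponential moments over a full period -/
lemma per_exp (q r : ℕ) (P S : Finset ℕ) (y T : ℕ) (hy : 1 ≤ y) (hS : S ⊆ Icc 1 T)
    (hP : ∀ p ∈ P, p.Prime ∧ y < p ∧ ¬ p ∣ q)
    (hT : 16 * Wp (P.filter (fun p => T < p)) * T ≤ Wp (P.filter (fun p => p ≤ T)) * y)
    (t : ℝ) (ht : |t| ≤ 1) :
    ∑ l ∈ range (∏ p ∈ P, p), Real.exp (t * XX q r P S l) ≤
      ((∏ p ∈ P, p : ℕ) : ℝ) * Real.exp (S.card * Wp P * (t + 5 * t ^ 2)) := by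
  set u : ℝ := Real.exp t - 1 with hu
  have h1 : |u - t| ≤ t ^ 2 := by
    have := Real.abs_exp_sub_one_sub_id_le ht
    rwa [hu]
  have ht2 : t ^ 2 ≤ |t| := by
    rw [← sq_abs]
    nlinarith [abs_nonneg t]
  have hu2 : |u| ≤ 2 * |t| := by
    calc |u| = |(u - t) + t| := by ring_nf
      _ ≤ |u - t| + |t| := abs_add_le _ _
      _ ≤ 2 * |t| := by linarith
  have hu1 : -1 < u := by rw [hu]; linarith [Real.exp_pos t]
  have h2 := Phi_final u hu1 (hu2.trans (by linarith)) P y T hy S hS (fun p hp => ⟨(hP p hp).1, (hP p hp).2.1⟩) hT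
  have h3 : u + u ^ 2 ≤ t + 5 * t ^ 2 := by
    have h4 : u ^ 2 ≤ 4 * t ^ 2 := by
      have := sq_le_sq' (by linarith [abs_nonneg u, abs_nonneg t]) hu2
      rw [sq_abs] at this
      calc u ^ 2 ≤ (2 * |t|) ^ 2 := this
        _ = 4 * t ^ 2 := by rw [mul_pow, sq_abs]; ring
    have := (abs_le.1 h1).2
    linarith
  have h5 : 0 ≤ (S.card : ℝ) * Wp P := mul_nonneg (Nat.cast_nonneg _) (Wp_pos P (fun p hp => (hP p hp).1.two_le)).le
  calc ∑ l ∈ range (∏ p ∈ P, p), Real.exp (t * XX q r P S l)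
      = ∑ l ∈ range (∏ p ∈ P, p), (1 + u) ^ (XX q r P S l) := by
        apply sum_congr rfl
        intro l _
        rw [hu, add_sub_cancel, ← Real.exp_nat_mul, mul_comm]
    _ = ((∏ p ∈ P, p : ℕ) : ℝ) * Phi P S u := per_gen q r P S (fun p hp => ⟨(hP p hp).1, (hP p hp).2.2⟩) u
    _ ≤ ((∏ p ∈ P, p : ℕ) : ℝ) * Real.exp (S.card * Wp P * (u + u ^ 2)) :=
        mul_le_mul_of_nonneg_left h2 (Nat.cast_nonneg _)
    _ ≤ _ := by
        apply mul_le_mul_of_nonneg_left _ (Nat.cast_nonneg _)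
        exact Real.exp_le_exp.2 (mul_le_mul_of_nonneg_left h3 h5)

lemma pow_le_exp (x t : ℝ) (ht : 0 < t) (k : ℕ) :
    x ^ (2 * k) ≤ (2 * k : ℝ) ^ (2 * k) * (1 / t) ^ (2 * k) * (Real.exp (t * x) + Real.exp (-(t * x))) := by
  have h1 := Real.pow_div_factorial_le_exp (|t * x|) (abs_nonneg _) (2 * k)
  have h2 : Real.exp |t * x| ≤ Real.exp (t * x) + Real.exp (-(t * x)) := by
    rcases abs_cases (t * x) with ⟨h, _⟩ | ⟨h, _⟩
    · rw [h]; linarith [Real.exp_pos (-(t * x))]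
    · rw [h]; linarith [Real.exp_pos (t * x)]
  have h3 : |t * x| ^ (2 * k) = t ^ (2 * k) * x ^ (2 * k) := by
    rw [pow_mul, sq_abs, ← pow_mul, mul_pow]
  rw [h3] at h1
  have h4 : (((2 * k).factorial : ℕ) : ℝ) ≤ (2 * k : ℝ) ^ (2 * k) := by
    have := Nat.factorial_le_pow (2 * k)
    exact_mod_cast this
  have hf : (0 : ℝ) < ((2 * k).factorial : ℝ) := by exact_mod_cast Nat.factorial_pos _
  have htk : 0 < t ^ (2 * k) := by positivity
  have h5 : t ^ (2 * k) * x ^ (2 * k) ≤ (2 * k : ℝ) ^ (2 * k) * (Real.exp (t * x) + Real.exp (-(t * x))) := by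
    rw [div_le_iff₀ hf] at h1
    calc t ^ (2 * k) * x ^ (2 * k) ≤ Real.exp |t * x| * ((2 * k).factorial : ℝ) := h1
      _ ≤ (Real.exp (t * x) + Real.exp (-(t * x))) * (2 * k : ℝ) ^ (2 * k) := by
          apply mul_le_mul h2 h4 hf.le (by positivity)
      _ = _ := mul_comm _ _
  rw [one_div, inv_pow]
  calc x ^ (2 * k) = (t ^ (2 * k))⁻¹ * (t ^ (2 * k) * x ^ (2 * k)) := by
        rw [← mul_assoc, inv_mul_cancel₀ htk.ne', one_mul]
    _ ≤ (t ^ (2 * k))⁻¹ * ((2 * k : ℝ) ^ (2 * k) * (Real.exp (t * x) + Real.exp (-(t * x)))) :=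
        mul_le_mul_of_nonneg_left h5 (by positivity)
    _ = _ := by ring

/-- central moments over a full period -/
lemma per_central (q r : ℕ) (P S : Finset ℕ) (y T : ℕ) (hy : 1 ≤ y) (hS : S ⊆ Icc 1 T)
    (hP : ∀ p ∈ P, p.Prime ∧ y < p ∧ ¬ p ∣ q)
    (hT : 16 * Wp (P.filter (fun p => T < p)) * T ≤ Wp (P.filter (fun p => p ≤ T)) * y)
    (k : ℕ) (hk : 1 ≤ k) (hkμ : (k : ℝ) ≤ S.card * Wp P) :
    ∑ l ∈ range (∏ p ∈ P, p), ((XX q r P S l : ℝ) - S.card * Wp P) ^ (2 * k) ≤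
      ((∏ p ∈ P, p : ℕ) : ℝ) * (2 * (4 * Real.exp 5 * k * (S.card * Wp P)) ^ k) := by
  set μ : ℝ := S.card * Wp P with hμ
  have hk0 : (0 : ℝ) < k := by exact_mod_cast hk
  have hμ0 : 0 < μ := hk0.trans_le hkμ
  set t : ℝ := √(k / μ) with ht
  have ht0 : 0 < t := Real.sqrt_pos.2 (by positivity)
  have ht2 : t ^ 2 = k / μ := Real.sq_sqrt (by positivity)
  have ht1 : t ≤ 1 := by
    have h0 : (k : ℝ) / μ ≤ 1 := by rw [div_le_one hμ0]; exact hkμ
    calc t ≤ √1 := Real.sqrt_le_sqrt h0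
      _ = 1 := Real.sqrt_one
  have h5 : ∀ s : ℝ, |s| = t → ∑ l ∈ range (∏ p ∈ P, p), Real.exp (s * ((XX q r P S l : ℝ) - μ)) ≤
      ((∏ p ∈ P, p : ℕ) : ℝ) * Real.exp 5 ^ k := by
    intro s hs
    have h6 := per_exp q r P S y T hy hS hP hT s (by rw [hs]; exact ht1)
    have hs2 : s ^ 2 = k / μ := by rw [← sq_abs, hs, ht2]
    calc ∑ l ∈ range (∏ p ∈ P, p), Real.exp (s * ((XX q r P S l : ℝ) - μ))
        = Real.exp (-(s * μ)) * ∑ l ∈ range (∏ p ∈ P, p), Real.exp (s * (XX q r P S l : ℝ)) := by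
          rw [mul_sum]
          apply sum_congr rfl
          intro l _
          rw [← Real.exp_add]
          congr 1
          ring
      _ ≤ Real.exp (-(s * μ)) * (((∏ p ∈ P, p : ℕ) : ℝ) * Real.exp (S.card * Wp P * (s + 5 * s ^ 2))) :=
          mul_le_mul_of_nonneg_left h6 (Real.exp_pos _).le
      _ = ((∏ p ∈ P, p : ℕ) : ℝ) * (Real.exp (-(s * μ)) * Real.exp (μ * (s + 5 * s ^ 2))) := by
          rw [hμ]; ring
      _ = ((∏ p ∈ P, p : ℕ) : ℝ) * Real.exp 5 ^ k := by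
          rw [← Real.exp_add, ← Real.exp_nat_mul, hs2]
          congr 2
          field_simp
          ring
  calc ∑ l ∈ range (∏ p ∈ P, p), ((XX q r P S l : ℝ) - μ) ^ (2 * k)
      ≤ ∑ l ∈ range (∏ p ∈ P, p), (2 * k : ℝ) ^ (2 * k) * (1 / t) ^ (2 * k) *
          (Real.exp (t * ((XX q r P S l : ℝ) - μ)) + Real.exp (-(t * ((XX q r P S l : ℝ) - μ)))) := by
        apply sum_le_sum
        intro l _
        exact pow_le_exp _ t ht0 k
    _ = (2 * k : ℝ) ^ (2 * k) * (1 / t) ^ (2 * k) *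
          (∑ l ∈ range (∏ p ∈ P, p), Real.exp (t * ((XX q r P S l : ℝ) - μ)) +
           ∑ l ∈ range (∏ p ∈ P, p), Real.exp ((-t) * ((XX q r P S l : ℝ) - μ))) := by
        rw [← mul_sum, ← sum_add_distrib]
        congr 1
        apply sum_congr rfl
        intro l _
        rw [neg_mul]
    _ ≤ (2 * k : ℝ) ^ (2 * k) * (1 / t) ^ (2 * k) *
          (((∏ p ∈ P, p : ℕ) : ℝ) * Real.exp 5 ^ k + ((∏ p ∈ P, p : ℕ) : ℝ) * Real.exp 5 ^ k) := by
        apply mul_le_mul_of_nonneg_left _ (by positivity)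
        exact add_le_add (h5 t (abs_of_pos ht0)) (h5 (-t) (by rw [abs_neg, abs_of_pos ht0]))
    _ = _ := by
        have e1 : (1 / t) ^ (2 * k) = (μ / k) ^ k := by
          rw [pow_mul, div_pow, one_pow, ht2, one_div_div]
        have e2 : (2 * k : ℝ) ^ (2 * k) = (4 * k ^ 2) ^ k := by rw [pow_mul]; congr 1; ring
        rw [e1, e2]
        have e3 : (4 * (k : ℝ) ^ 2) ^ k * (μ / k) ^ k * Real.exp 5 ^ k = (4 * Real.exp 5 * k * μ) ^ k := by
          rw [← mul_pow, ← mul_pow]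
          congr 1
          field_simp
        rw [← e3]
        ring

/-- the other moments over a full period -/
lemma per_plus (q r : ℕ) (P S : Finset ℕ) (y T : ℕ) (hy : 1 ≤ y) (hS : S ⊆ Icc 1 T)
    (hP : ∀ p ∈ P, p.Prime ∧ y < p ∧ ¬ p ∣ q)
    (hT : 16 * Wp (P.filter (fun p => T < p)) * T ≤ Wp (P.filter (fun p => p ≤ T)) * y)
    (k : ℕ) (hk : 1 ≤ k) (hkμ : (k : ℝ) ≤ S.card * Wp P) :
    ∑ l ∈ range (∏ p ∈ P, p), ((XX q r P S l : ℝ) + S.card * Wp P) ^ (2 * k) ≤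
      ((∏ p ∈ P, p : ℕ) : ℝ) * (4 * Real.exp 7 * (S.card * Wp P) ^ 2) ^ k := by
  set μ : ℝ := S.card * Wp P with hμ
  have hk0 : (0 : ℝ) < k := by exact_mod_cast hk
  have hμ0 : 0 < μ := hk0.trans_le hkμ
  set t : ℝ := k / μ with ht
  have ht0 : 0 < t := by positivity
  have ht1 : t ≤ 1 := by
    rw [ht, div_le_one hμ0]
    exact hkμ
  have h6 := per_exp q r P S y T hy hS hP hT t (by rw [abs_of_pos ht0]; exact ht1)
  have h1 : ∀ x : ℝ, 0 ≤ x → x ^ (2 * k) ≤ (2 * k : ℝ) ^ (2 * k) * (1 / t) ^ (2 * k) * Real.exp (t * x) := by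
    intro x hx
    have h1 := Real.pow_div_factorial_le_exp (t * x) (by positivity) (2 * k)
    have h4 : (((2 * k).factorial : ℕ) : ℝ) ≤ (2 * k : ℝ) ^ (2 * k) := by
      have := Nat.factorial_le_pow (2 * k)
      exact_mod_cast this
    have hf : (0 : ℝ) < ((2 * k).factorial : ℝ) := by exact_mod_cast Nat.factorial_pos _
    rw [div_le_iff₀ hf, mul_pow] at h1
    have htk : 0 < t ^ (2 * k) := by positivity
    rw [one_div, inv_pow]
    calc x ^ (2 * k) = (t ^ (2 * k))⁻¹ * (t ^ (2 * k) * x ^ (2 * k)) := by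
          rw [← mul_assoc, inv_mul_cancel₀ htk.ne', one_mul]
      _ ≤ (t ^ (2 * k))⁻¹ * (Real.exp (t * x) * (2 * k : ℝ) ^ (2 * k)) := by
          apply mul_le_mul_of_nonneg_left _ (by positivity)
          exact h1.trans (mul_le_mul_of_nonneg_left h4 (Real.exp_pos _).le)
      _ = _ := by ring
  calc ∑ l ∈ range (∏ p ∈ P, p), ((XX q r P S l : ℝ) + μ) ^ (2 * k)
      ≤ ∑ l ∈ range (∏ p ∈ P, p), (2 * k : ℝ) ^ (2 * k) * (1 / t) ^ (2 * k) *
          Real.exp (t * ((XX q r P S l : ℝ) + μ)) := by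
        apply sum_le_sum
        intro l _
        exact h1 _ (by positivity)
    _ = (2 * k : ℝ) ^ (2 * k) * (1 / t) ^ (2 * k) * (Real.exp (t * μ) *
          ∑ l ∈ range (∏ p ∈ P, p), Real.exp (t * (XX q r P S l : ℝ))) := by
        rw [← mul_sum, mul_sum (s := range (∏ p ∈ P, p)) (a := Real.exp (t * μ))]
        congr 1
        apply sum_congr rfl
        intro l _
        rw [← Real.exp_add]
        congr 1
        ring
    _ ≤ (2 * k : ℝ) ^ (2 * k) * (1 / t) ^ (2 * k) * (Real.exp (t * μ) *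
          (((∏ p ∈ P, p : ℕ) : ℝ) * Real.exp (S.card * Wp P * (t + 5 * t ^ 2)))) := by
        gcongr
    _ = ((∏ p ∈ P, p : ℕ) : ℝ) * ((4 * μ ^ 2) ^ k * (Real.exp (t * μ) * Real.exp (μ * (t + 5 * t ^ 2)))) := by
        have e2 : (2 * k : ℝ) ^ (2 * k) * (1 / t) ^ (2 * k) = (4 * μ ^ 2) ^ k := by
          rw [← mul_pow, pow_mul]
          congr 1
          rw [ht]
          field_simp
          ring
        rw [e2, hμ]
        ring
    _ ≤ ((∏ p ∈ P, p : ℕ) : ℝ) * ((4 * μ ^ 2) ^ k * Real.exp 7 ^ k) := by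
        apply mul_le_mul_of_nonneg_left _ (Nat.cast_nonneg _)
        apply mul_le_mul_of_nonneg_left _ (by positivity)
        rw [← Real.exp_add, ← Real.exp_nat_mul]
        apply Real.exp_le_exp.2
        have e3 : t * μ = k := by rw [ht]; field_simp
        have e4 : μ * (5 * t ^ 2) ≤ 5 * k := by
          calc μ * (5 * t ^ 2) = 5 * (t * μ) * t := by ring
            _ = 5 * k * t := by rw [e3]
            _ ≤ 5 * k * 1 := mul_le_mul_of_nonneg_left ht1 (by positivity)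
            _ = 5 * k := mul_one _
        nlinarith
    _ = _ := by
        rw [← mul_pow]
        congr 2
        ring

end Pool.Agent.H36.RW
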