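import Mathlib
import Pool.Agent.H36.RW.Mom

/-!
The number of survivors is concentrated, over intervals.
-/

set_option autoImplicit false

namespace Pool.Agent.H36.RW
open Finset Pool.Agent.H373R2.T7

theorem int_count' : ∃ C0 : ℕ, 1 ≤ C0 ∧ ∀ (κ b Jd z0 q r : ℕ) (P J : Finset ℕ), C0 * κ ≤ b → 2 ≤ b → 2 * κ + 10 ≤ z0 →
    (∀ p ∈ P, p.Prime ∧ z0 < p ∧ p ≤ 2 ^ 2 ^ Jd) → (∀ p ∈ P, ¬ p ∣ q) → J.card ≤ κ → ∀ (X : ℕ),
    |(NN q r P (Icc 1 X) J : ℝ) - X * rho P J| ≤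
      (1 / 2 : ℝ) ^ b * (X * rho P J) + ((Jd : ℝ) + 2) * (((2 : ℝ) ^ 2 ^ Jd) ^ (10 * b)) ^ 2 := by
  obtain ⟨C0, hC0, h⟩ := uFL
  refine ⟨C0, hC0, fun κ b Jd z0 q r P J h1 h2 h3 h4 h5 h6 X => ?_⟩
  refine int_count C0 ?_ κ b Jd z0 q r P J h1 h2 h3 h4 h5 h6 X
  intro κ b J z0 P g a1 a2 a3 a4 a5 Ω w hit _ A err a6 a7 a8
  have := h κ b J z0 P g a1 a2 a3 a4 a5 Ω w hit A err a6 a7 (by
    intro T hT hTD
    have := a8 T hT hTD
    convert this using 5)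
  convert this using 5

lemma binom_expand (I : ℕ → ℝ) (μ : ℝ) (n : ℕ) {ι : Type} (Ω : Finset ι) (x : ι → ℝ)
    (hI : ∀ i, I i = ∑ l ∈ Ω, x l ^ i) : ∑ l ∈ Ω, (x l + μ) ^ n =
      ∑ i ∈ range (n + 1), I i * μ ^ (n - i) * (n.choose i : ℝ) := by
  have h1 : ∀ l ∈ Ω, (x l + μ) ^ n = ∑ i ∈ range (n + 1), x l ^ i * μ ^ (n - i) * (n.choose i : ℝ) := fun l _ =>
    add_pow (x l) μ n
  rw [sum_congr rfl h1, sum_comm]
  apply sum_congr rfl
  intro i _
  rw [hI, sum_mul, sum_mul]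

theorem core : ∃ C0 : ℕ, 1 ≤ C0 ∧ ∀ (q r : ℕ) (P S : Finset ℕ) (y T k b Jd X : ℕ) (ε : ℝ),
    1 ≤ k → C0 * (2 * k) ≤ b → 2 ≤ b → 4 * k + 10 ≤ y →
    (∀ p ∈ P, p.Prime ∧ y < p ∧ p ≤ 2 ^ 2 ^ Jd ∧ ¬ p ∣ q) → S ⊆ Icc 1 T →
    16 * Wp (P.filter (fun p => T < p)) * T ≤ Wp (P.filter (fun p => p ≤ T)) * y →
    (k : ℝ) ≤ S.card * Wp P → 0 < ε →
    (((Icc 1 X).filter (fun l => ε * (S.card * Wp P) < |(XX q r P S l : ℝ) - S.card * Wp P|)).card : ℝ) ≤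
      X * (2 * (4 * Real.exp 5 * k / (ε ^ 2 * (S.card * Wp P))) ^ k + (1 / 2) ^ b * (4 * Real.exp 7 / ε ^ 2) ^ k) +
      ((S.card + S.card * Wp P) / (ε * (S.card * Wp P))) ^ (2 * k) *
        (((Jd : ℝ) + 2) * (((2 : ℝ) ^ 2 ^ Jd) ^ (10 * b)) ^ 2) := by
  obtain ⟨C0, hC0, hint⟩ := int_count'
  refine ⟨C0, hC0, ?_⟩
  intro q r P S y T k b Jd X ε hk hb hb2 hy hP hS hT hkμ hε
  set μ : ℝ := S.card * Wp P with hμ
  have hk0 : (0 : ℝ) < k := by exact_mod_cast hk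
  have hμ0 : 0 < μ := hk0.trans_le hkμ
  set E : ℝ := ((Jd : ℝ) + 2) * (((2 : ℝ) ^ 2 ^ Jd) ^ (10 * b)) ^ 2 with hE
  have hE0 : 0 ≤ E := by rw [hE]; positivity
  set Pi : ℝ := ((∏ p ∈ P, p : ℕ) : ℝ) with hPi
  have hPi0 : 0 < Pi := by
    rw [hPi]
    exact_mod_cast Nat.pos_of_ne_zero (prod_ne_zero_iff.2 fun p hp => (hP p hp).1.ne_zero)
  have hPq : ∀ p ∈ P, p.Prime ∧ ¬ p ∣ q := fun p hp => ⟨(hP p hp).1, (hP p hp).2.2.2⟩
  set R := range (∏ p ∈ P, p) with hR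
  set x : ℕ → ℝ := fun l => (XX q r P S l : ℝ) with hx
  set I : ℕ → ℝ := fun i => ∑ l ∈ Icc 1 X, x l ^ i with hI
  set M : ℕ → ℝ := fun i => ∑ l ∈ R, x l ^ i with hM
  have hM0 : ∀ i, 0 ≤ M i := fun i => sum_nonneg fun l _ => by positivity
  -- the moments
  have hmom : ∀ i ≤ 2 * k, |I i - X * (M i / Pi)| ≤ (1 / 2) ^ b * (X * (M i / Pi)) + (S.card : ℝ) ^ i * E := by
    intro i hi
    have e1 : I i = ∑ f ∈ Fintype.piFinset (fun _ : Fin i => S), (NN q r P (Icc 1 X) (univ.image f) : ℝ) :=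
      mom_sum q r P S (Icc 1 X) i
    have e2 : M i / Pi = ∑ f ∈ Fintype.piFinset (fun _ : Fin i => S), rho P (univ.image f) := by
      have e3 : M i = ∑ f ∈ Fintype.piFinset (fun _ : Fin i => S), (NN q r P R (univ.image f) : ℝ) :=
        mom_sum q r P S R i
      rw [e3, sum_div]
      apply sum_congr rfl
      intro f _
      rw [hR, per_NN q r P _ hPq, mul_div_assoc, mul_comm, div_mul_cancel₀ _ hPi0.ne']
    rw [e1, e2, mul_sum, ← sum_sub_distrib]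
    refine (abs_sum_le_sum_abs _ _).trans ?_
    have h1 : ∀ f ∈ Fintype.piFinset (fun _ : Fin i => S), |(NN q r P (Icc 1 X) (univ.image f) : ℝ) -
        X * rho P (univ.image f)| ≤ (1 / 2) ^ b * (X * rho P (univ.image f)) + E := by
      intro f _
      apply hint (2 * k) b Jd y q r P (univ.image f) hb hb2 (by omega) (fun p hp => ⟨(hP p hp).1, (hP p hp).2.1, (hP p hp).2.2.1⟩)
        (fun p hp => (hP p hp).2.2.2)
      calc (univ.image f).card ≤ (univ : Finset (Fin i)).card := card_image_le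
        _ = i := by simp
        _ ≤ 2 * k := hi
    refine (sum_le_sum h1).trans (le_of_eq ?_)
    rw [sum_add_distrib, ← mul_sum, sum_const, nsmul_eq_mul, Fintype.card_piFinset, prod_const, card_univ, Fintype.card_fin]
    push_cast
    rfl
  -- the central moment
  have hcen : ∑ l ∈ Icc 1 X, (x l - μ) ^ (2 * k) ≤ X * (2 * (4 * Real.exp 5 * k * μ) ^ k) +
      (1 / 2) ^ b * (X * (4 * Real.exp 7 * μ ^ 2) ^ k) + (S.card + μ) ^ (2 * k) * E := by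
    have e1 : ∑ l ∈ Icc 1 X, (x l - μ) ^ (2 * k) = ∑ i ∈ range (2 * k + 1), I i * (-μ) ^ (2 * k - i) * ((2 * k).choose i : ℝ) := by
      have := binom_expand I (-μ) (2 * k) (Icc 1 X) x (fun i => rfl)
      rw [← this]
      apply sum_congr rfl
      intro l _
      rw [sub_eq_add_neg]
    have e2 : ∑ l ∈ R, (x l - μ) ^ (2 * k) = ∑ i ∈ range (2 * k + 1), M i * (-μ) ^ (2 * k - i) * ((2 * k).choose i : ℝ) := by
      have := binom_expand M (-μ) (2 * k) R x (fun i => rfl)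
      rw [← this]
      apply sum_congr rfl
      intro l _
      rw [sub_eq_add_neg]
    have e3 : ∑ l ∈ R, (x l + μ) ^ (2 * k) = ∑ i ∈ range (2 * k + 1), M i * μ ^ (2 * k - i) * ((2 * k).choose i : ℝ) :=
      binom_expand M μ (2 * k) R x (fun i => rfl)
    have e4 : ((S.card : ℝ) + μ) ^ (2 * k) = ∑ i ∈ range (2 * k + 1), (S.card : ℝ) ^ i * μ ^ (2 * k - i) * ((2 * k).choose i : ℝ) :=
      add_pow _ _ _
    have h1 : ∑ l ∈ Icc 1 X, (x l - μ) ^ (2 * k) ≤ (X / Pi) * ∑ l ∈ R, (x l - μ) ^ (2 * k) +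
        (1 / 2) ^ b * ((X / Pi) * ∑ l ∈ R, (x l + μ) ^ (2 * k)) + (S.card + μ) ^ (2 * k) * E := by
      rw [e1, e2, e3, e4, mul_sum, mul_sum, mul_sum, sum_mul, ← sum_add_distrib, ← sum_add_distrib]
      apply sum_le_sum
      intro i hi
      have hi' : i ≤ 2 * k := by
        have := mem_range.1 hi
        omega
      have h2 := hmom i hi'
      set c : ℝ := ((2 * k).choose i : ℝ) with hc
      have hc0 : 0 ≤ c := Nat.cast_nonneg _
      have h3 : (I i - X * (M i / Pi)) * (-μ) ^ (2 * k - i) ≤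
          ((1 / 2) ^ b * (X * (M i / Pi)) + (S.card : ℝ) ^ i * E) * μ ^ (2 * k - i) := by
        calc (I i - X * (M i / Pi)) * (-μ) ^ (2 * k - i) ≤ |(I i - X * (M i / Pi)) * (-μ) ^ (2 * k - i)| := le_abs_self _
          _ = |I i - X * (M i / Pi)| * μ ^ (2 * k - i) := by
              rw [abs_mul, abs_pow, abs_neg, abs_of_pos hμ0]
          _ ≤ _ := mul_le_mul_of_nonneg_right h2 (by positivity)
      have h4 := mul_le_mul_of_nonneg_right h3 hc0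
      have e5 : I i * (-μ) ^ (2 * k - i) * c = (X / Pi) * (M i * (-μ) ^ (2 * k - i) * c) +
          (I i - X * (M i / Pi)) * (-μ) ^ (2 * k - i) * c := by ring
      rw [e5]
      have e6 : ((1 / 2) ^ b * (X * (M i / Pi)) + (S.card : ℝ) ^ i * E) * μ ^ (2 * k - i) * c =
          (1 / 2) ^ b * ((X / Pi) * (M i * μ ^ (2 * k - i) * c)) + (S.card : ℝ) ^ i * μ ^ (2 * k - i) * c * E := by ring
      rw [e6] at h4
      linarith
    have h2 := per_central q r P S y T (by omega) hS (fun p hp => ⟨(hP p hp).1, (hP p hp).2.1, (hP p hp).2.2.2⟩) hT k hk hkμ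
    have h3 := per_plus q r P S y T (by omega) hS (fun p hp => ⟨(hP p hp).1, (hP p hp).2.1, (hP p hp).2.2.2⟩) hT k hk hkμ
    have h4 : (X / Pi) * ∑ l ∈ R, (x l - μ) ^ (2 * k) ≤ X * (2 * (4 * Real.exp 5 * k * μ) ^ k) := by
      calc (X / Pi) * ∑ l ∈ R, (x l - μ) ^ (2 * k) ≤ (X / Pi) * (Pi * (2 * (4 * Real.exp 5 * k * μ) ^ k)) :=
            mul_le_mul_of_nonneg_left h2 (by positivity)
        _ = _ := by field_simp
    have h5 : (X / Pi) * ∑ l ∈ R, (x l + μ) ^ (2 * k) ≤ X * (4 * Real.exp 7 * μ ^ 2) ^ k := by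
      calc (X / Pi) * ∑ l ∈ R, (x l + μ) ^ (2 * k) ≤ (X / Pi) * (Pi * (4 * Real.exp 7 * μ ^ 2) ^ k) :=
            mul_le_mul_of_nonneg_left h3 (by positivity)
        _ = _ := by field_simp
    have h6 := mul_le_mul_of_nonneg_left h5 (show (0 : ℝ) ≤ (1 / 2) ^ b by positivity)
    linarith
  -- Markov
  set B := (Icc 1 X).filter (fun l => ε * μ < |(XX q r P S l : ℝ) - μ|) with hB
  have hεμ : 0 < ε * μ := by positivity
  have hmar : (B.card : ℝ) * (ε * μ) ^ (2 * k) ≤ ∑ l ∈ Icc 1 X, (x l - μ) ^ (2 * k) := by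
    calc (B.card : ℝ) * (ε * μ) ^ (2 * k) = ∑ l ∈ B, (ε * μ) ^ (2 * k) := by
          rw [sum_const, nsmul_eq_mul]
      _ ≤ ∑ l ∈ B, (x l - μ) ^ (2 * k) := by
          apply sum_le_sum
          intro l hl
          rw [hB, mem_filter] at hl
          have h1 : (x l - μ) ^ (2 * k) = |x l - μ| ^ (2 * k) := by
            rw [pow_mul, pow_mul, sq_abs]
          rw [h1]
          exact pow_le_pow_left₀ hεμ.le hl.2.le _
      _ ≤ _ := by
          apply sum_le_sum_of_subset_of_nonneg (filter_subset _ _)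
          intro l _ _
          rw [pow_mul]
          positivity
  have h1 := hmar.trans hcen
  have hden : 0 < (ε * μ) ^ (2 * k) := by positivity
  rw [← le_div_iff₀ hden] at h1
  refine h1.trans (le_of_eq ?_)
  have e1 : (ε * μ) ^ (2 * k) = (ε ^ 2 * μ ^ 2) ^ k := by rw [pow_mul, mul_pow]
  have e2 : 2 * (4 * Real.exp 5 * k * μ) ^ k / (ε * μ) ^ (2 * k) = 2 * (4 * Real.exp 5 * k / (ε ^ 2 * μ)) ^ k := by
    rw [e1, mul_div_assoc, ← div_pow]
    congr 2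
    field_simp
  have e3 : (X : ℝ) * (4 * Real.exp 7 * μ ^ 2) ^ k / (ε * μ) ^ (2 * k) = X * (4 * Real.exp 7 / ε ^ 2) ^ k := by
    rw [e1, mul_div_assoc, ← div_pow]
    congr 2
    field_simp
  have e4 : ((S.card : ℝ) + μ) ^ (2 * k) * E / (ε * μ) ^ (2 * k) = ((S.card + μ) / (ε * μ)) ^ (2 * k) * E := by
    rw [div_pow]
    ring
  have e5 : ∀ a c d D : ℝ, (X * a + (1 / 2) ^ b * (X * c) + d) / D =
      X * (a / D) + (1 / 2) ^ b * (X * c / D) + d / D := by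
    intro a c d D
    ring
  rw [e5, e2, e3, e4]
  ring

end Pool.Agent.H36.RW
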