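import Mathlib
import Pool.Graph.R_seed8.H373R2.T7.Fund
import Pool.Agent.H36.RW.Model2

/-!
Bounds for `∏ (1 - 1/p)` over the primes `p ≤ x`, and the count of the elements of a window without
small prime factors.
-/

set_option autoImplicit false

namespace Pool.Agent.H36.RW
open Finset Pool.Agent.H373R2.T7

lemma log_two_bounds : 0.69 < Real.log 2 ∧ Real.log 2 < 0.7 := by
  have h1 := Real.log_two_gt_d9
  have h2 := Real.log_two_lt_d9
  constructor <;> norm_num at * <;> linarith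

lemma fac_bounds {p : ℕ} (hp : p.Prime) : 0 ≤ 1 - (1 : ℝ) / p ∧ 1 - (1 : ℝ) / p ≤ 1 := by
  have h2 : (2 : ℝ) ≤ p := by exact_mod_cast hp.two_le
  have h3 : (1 : ℝ) / p ≤ 1 := by rw [div_le_one (by linarith)]; linarith
  have h4 : 0 < (1 : ℝ) / p := by positivity
  constructor <;> linarith

lemma natlog_bounds (x : ℕ) (hx : 2 ≤ x) : (Nat.log 2 x : ℝ) * Real.log 2 ≤ Real.log x ∧
    Real.log x ≤ ((Nat.log 2 x : ℝ) + 1) * Real.log 2 := by
  have hx0 : (0 : ℝ) < x := by exact_mod_cast (by omega : 0 < x)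
  constructor
  · have h1 : ((2 ^ Nat.log 2 x : ℕ) : ℝ) ≤ x := by exact_mod_cast Nat.pow_log_le_self 2 (by omega)
    have h2 := Real.log_le_log (by positivity) h1
    push_cast at h2
    rwa [Real.log_pow] at h2
  · have h1 : (x : ℝ) ≤ ((2 ^ (Nat.log 2 x + 1) : ℕ) : ℝ) := by
      exact_mod_cast (Nat.lt_pow_succ_log_self (by norm_num) x).le
    have h2 := Real.log_le_log hx0 h1
    push_cast at h2
    rw [Real.log_pow] at h2
    push_cast at h2
    exact h2

theorem Vz_lower : ∃ c : ℝ, 0 < c ∧ ∀ x : ℕ, 2 ≤ x → c / Real.log x ≤ Vz x := by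
  obtain ⟨c, C, hc, hC, h⟩ := Pool.Agent.Helper112.LP.mertens_prod
  refine ⟨c / 4, by positivity, fun x hx => ?_⟩
  have h1 := (h (JJ x)).1
  have hx0 : (1 : ℝ) < x := by exact_mod_cast hx
  have hL : 0 < Real.log x := Real.log_pos hx0
  have h2 : ∏ l ∈ (range (2 ^ 2 ^ JJ x)).filter Nat.Prime, (1 - (1 : ℝ) / l) ≤ Vz x := by
    unfold Vz
    apply prod_le_prod_of_subset_of_le_one
    · intro p hp
      obtain ⟨h3, h4⟩ := mem_pz.1 hp
      rw [mem_filter, mem_range]
      exact ⟨lt_of_le_of_lt h3 (JJ_lt x), h4⟩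
    · intro p hp
      exact (fac_bounds (mem_filter.1 hp).2).1
    · intro p hp _
      exact (fac_bounds (mem_filter.1 hp).2).2
  refine le_trans ?_ (h1.trans h2)
  have h3 : ((2 : ℝ) ^ JJ x) ≤ 4 * Real.log x := by
    have h4 : (((2 ^ JJ x : ℕ)) : ℝ) ≤ ((2 * Nat.log 2 x : ℕ) : ℝ) := by exact_mod_cast JJ_pow x hx
    push_cast at h4
    have h5 := (natlog_bounds x hx).1
    have h6 := log_two_bounds.1
    have h7 : (0 : ℝ) ≤ Nat.log 2 x := Nat.cast_nonneg _
    nlinarith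
  rw [div_div]
  exact div_le_div_of_nonneg_left hc.le (by positivity) h3

theorem Vz_upper : ∃ C : ℝ, 0 < C ∧ ∀ x : ℕ, 2 ≤ x → Vz x ≤ C / Real.log x := by
  obtain ⟨c, C, hc, hC, h⟩ := Pool.Agent.Helper112.LP.mertens_prod
  refine ⟨4 * C, by positivity, fun x hx => ?_⟩
  have hx0 : (1 : ℝ) < x := by exact_mod_cast hx
  have hL : 0 < Real.log x := Real.log_pos hx0
  set J := JJ x - 1 with hJ
  have hJ1 : JJ x = J + 1 := by unfold JJ at hJ ⊢; omega
  have h0 : Nat.log 2 x ≠ 0 := by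
    have : 0 < Nat.log 2 x := Nat.log_pos (by norm_num) hx
    omega
  have hJx : 2 ^ 2 ^ J ≤ x := by
    have h1 : 2 ^ J ≤ Nat.log 2 x := by
      have : J = Nat.log 2 (Nat.log 2 x) := by rw [hJ]; unfold JJ; omega
      rw [this]
      exact Nat.pow_log_le_self 2 h0
    calc 2 ^ 2 ^ J ≤ 2 ^ Nat.log 2 x := Nat.pow_le_pow_right (by norm_num) h1
      _ ≤ x := Nat.pow_log_le_self 2 (by omega)
  have h1 := (h J).2
  have h2 : Vz x ≤ ∏ l ∈ (range (2 ^ 2 ^ J)).filter Nat.Prime, (1 - (1 : ℝ) / l) := by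
    unfold Vz
    apply prod_le_prod_of_subset_of_le_one
    · intro p hp
      rw [mem_filter, mem_range] at hp
      exact mem_pz.2 ⟨hp.1.le.trans hJx, hp.2⟩
    · intro p hp
      exact (fac_bounds (mem_pz.1 hp).2).1
    · intro p hp _
      exact (fac_bounds (mem_pz.1 hp).2).2
  refine h2.trans (h1.trans ?_)
  -- log x ≤ 4 * 2^J
  have h3 : Real.log x ≤ 4 * 2 ^ J := by
    have h4 : Nat.log 2 x + 1 ≤ 2 ^ (J + 1) := by
      rw [← hJ1]
      unfold JJ
      exact Nat.lt_pow_succ_log_self (by norm_num) _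
    have h5 : ((Nat.log 2 x : ℝ) + 1) ≤ 2 ^ (J + 1) := by exact_mod_cast h4
    have h6 := (natlog_bounds x hx).2
    have h7 := log_two_bounds.2
    have h8 := log_two_bounds.1
    rw [pow_succ] at h5
    have h9 : (0 : ℝ) ≤ Nat.log 2 x := Nat.cast_nonneg _
    nlinarith
  rw [div_le_div_iff₀ (by positivity) hL]
  nlinarith

/-- the number of elements of `(m, m + T]` without prime factors `≤ y` -/
def Rg (y m T : ℕ) : ℕ := ((Icc 1 T).filter (fun h => ∀ p ∈ pz y, ¬ p ∣ m + h)).card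

theorem small_count (ε : ℝ) (hε : 0 < ε) : ∃ K x0 : ℕ, 1 ≤ K ∧ ∀ T y : ℕ, x0 ≤ y → y ^ K ≤ T → ∀ m : ℕ,
    |(Rg y m T : ℝ) - T * Vz y| ≤ ε * (T * Vz y) + √(T : ℝ) := by
  classical
  obtain ⟨K, x0, hK, h⟩ := sys_fund 1 le_rfl ε hε
  refine ⟨K, x0, hK, fun T y hy hyT m => ?_⟩
  have hnu : ∀ p, p.Prime → nuB (fun p n => p ∣ m + n) p = 1 := by
    intro p hp
    unfold nuB
    rw [card_eq_one]
    refine ⟨(p - m % p) % p, ?_⟩
    ext a
    simp only [mem_filter, mem_range, mem_singleton]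
    have hp0 := hp.pos
    have hmp : m % p < p := Nat.mod_lt _ hp0
    constructor
    · rintro ⟨h1, h2⟩
      have h3 : (m % p + a) % p = 0 := by
        rw [Nat.mod_add_mod]
        exact Nat.mod_eq_zero_of_dvd h2
      rcases Nat.eq_zero_or_pos (m % p) with h4 | h4
      · rw [h4, zero_add, Nat.mod_eq_of_lt h1] at h3
        rw [h4, h3, Nat.sub_zero, Nat.mod_self]
      · have h5 : m % p + a = p := by
          obtain ⟨c, hc⟩ := Nat.dvd_of_mod_eq_zero h3
          rcases Nat.lt_or_ge c 2 with h6 | h6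
          · interval_cases c
            · omega
            · omega
          · nlinarith
        rw [Nat.mod_eq_of_lt (by omega)]
        omega
    · intro h1
      rcases Nat.eq_zero_or_pos (m % p) with h4 | h4
      · rw [h4, Nat.sub_zero, Nat.mod_self] at h1
        rw [h1]
        exact ⟨hp0, by show p ∣ m + 0; rw [add_zero]; exact Nat.dvd_of_mod_eq_zero h4⟩
      · rw [Nat.mod_eq_of_lt (by omega)] at h1
        refine ⟨by omega, ?_⟩
        apply Nat.dvd_of_mod_eq_zero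
        rw [← Nat.mod_add_mod, h1, Nat.add_sub_cancel' hmp.le, Nat.mod_self]
  have hper : PerB (fun p n => p ∣ m + n) 1 := by
    refine ⟨fun p n => ?_, fun p hp => (hnu p hp).le⟩
    have h1 : m + n ≡ m + n % p [MOD p] := Nat.ModEq.add_left _ (Nat.mod_modEq n p).symm
    constructor
    · intro h2
      exact Nat.modEq_zero_iff_dvd.1 (h1.symm.trans (Nat.modEq_zero_iff_dvd.2 h2))
    · intro h2
      exact Nat.modEq_zero_iff_dvd.1 (h1.trans (Nat.modEq_zero_iff_dvd.2 h2))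
  have key := h T y hy hyT (fun p n => p ∣ m + n) hper T
  have e1 : ∏ p ∈ pz y, (1 - (nuB (fun p n => p ∣ m + n) p : ℝ) / p) = Vz y := by
    unfold Vz
    apply prod_congr rfl
    intro p hp
    rw [hnu p (mem_pz.1 hp).2, Nat.cast_one]
  rw [e1] at key
  unfold Rg
  convert key using 5
  ext x
  simp only [mem_filter]

end Pool.Agent.H36.RW
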