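import Mathlib
import Pool.Agent.H36.RW.Core
import Pool.Agent.H36.RW.Mert

/-!
Rough numbers in the windows `(q l + r, q l + r + T]`: reduction to the core theorem.
-/

set_option autoImplicit false

namespace Pool.Agent.H36.RW
open Finset Pool.Agent.H373R2.T7

/-- product of the primes `≤ y` -/
def Qy (y : ℕ) : ℕ := ∏ p ∈ pz y, p

lemma Qy_pos (y : ℕ) : 0 < Qy y :=
  Nat.pos_of_ne_zero (prod_ne_zero_iff.2 fun p hp => (mem_pz.1 hp).2.ne_zero)

/-- primes in `(y, z]` -/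
def Pyz (y z : ℕ) : Finset ℕ := (pz z).filter (fun p => y < p)

lemma mem_Pyz {y z p : ℕ} : p ∈ Pyz y z ↔ y < p ∧ p ≤ z ∧ p.Prime := by
  unfold Pyz
  rw [mem_filter, mem_pz]
  tauto

lemma pz_split (y z : ℕ) (h : y ≤ z) : pz z = pz y ∪ Pyz y z := by
  ext p
  rw [mem_union, mem_Pyz, mem_pz, mem_pz]
  constructor
  · rintro ⟨h1, h2⟩
    rcases Nat.lt_or_ge y p with h3 | h3
    · exact Or.inr ⟨h3, h1, h2⟩
    · exact Or.inl ⟨h3, h2⟩
  · rintro (⟨h1, h2⟩ | ⟨_, h1, h2⟩)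
    · exact ⟨h1.trans h, h2⟩
    · exact ⟨h1, h2⟩

lemma pz_disj (y z : ℕ) : Disjoint (pz y) (Pyz y z) := by
  rw [disjoint_left]
  intro p hp hp'
  have h1 := (mem_pz.1 hp).1
  have h2 := (mem_Pyz.1 hp').1
  omega

lemma Wp_Pyz (y z : ℕ) (h : y ≤ z) : Vz y * Wp (Pyz y z) = Vz z := by
  unfold Vz Wp
  rw [pz_split y z h, prod_union (pz_disj y z)]

lemma Wp_Pyz' (y z : ℕ) (h : y ≤ z) : Wp (Pyz y z) = Vz z / Vz y := by
  rw [eq_div_iff (Vz_pos y).ne', mul_comm]
  exact Wp_Pyz y z h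

/-- the positions without small prime factors -/
def Sy (y m T : ℕ) : Finset ℕ := (Icc 1 T).filter (fun h => ∀ p ∈ pz y, ¬ p ∣ m + h)

lemma Rg_eq_XX (q r y z T c l : ℕ) (h : y ≤ z) :
    Rg z (q * (Qy y * l + c) + r) T = XX (q * Qy y) (q * c + r) (Pyz y z) (Sy y (q * c + r) T) l := by
  unfold Rg XX Sy
  rw [filter_filter]
  congr 1
  apply filter_congr
  intro x _
  rw [pz_split y z h]
  have e1 : q * (Qy y * l + c) + r + x = q * Qy y * l + (q * c + r) + x := by ring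
  have e2 : ∀ p ∈ pz y, (p ∣ q * Qy y * l + (q * c + r) + x ↔ p ∣ q * c + r + x) := by
    intro p hp
    have h1 : p ∣ q * Qy y * l := by
      apply Dvd.dvd.mul_right
      apply Dvd.dvd.mul_left
      exact dvd_prod_of_mem (fun p => p) hp
    rw [add_assoc]
    exact (Nat.dvd_add_right h1)
  rw [e1]
  constructor
  · intro h1
    exact ⟨fun p hp hd => h1 p (mem_union_left _ hp) ((e2 p hp).2 hd), fun p hp => h1 p (mem_union_right _ hp)⟩
  · rintro ⟨h1, h2⟩ p hp
    rcases mem_union.1 hp with h3 | h3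
    · exact fun hd => h1 p h3 ((e2 p h3).1 hd)
    · exact h2 p h3

/-- windows with the wrong number of rough elements -/
def Bad (ε : ℝ) (z m T : ℕ) : Prop := ε * (T * Vz z) < |(Rg z m T : ℝ) - T * Vz z|

open Classical in
theorem disc (C0 : ℕ) (hcore : ∀ (q r : ℕ) (P S : Finset ℕ) (y T k b Jd X : ℕ) (ε : ℝ),
    1 ≤ k → C0 * (2 * k) ≤ b → 2 ≤ b → 4 * k + 10 ≤ y →
    (∀ p ∈ P, p.Prime ∧ y < p ∧ p ≤ 2 ^ 2 ^ Jd ∧ ¬ p ∣ q) → S ⊆ Icc 1 T →
    16 * Wp (P.filter (fun p => T < p)) * T ≤ Wp (P.filter (fun p => p ≤ T)) * y →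
    (k : ℝ) ≤ S.card * Wp P → 0 < ε →
    (((Icc 1 X).filter (fun l => ε * (S.card * Wp P) < |(XX q r P S l : ℝ) - S.card * Wp P|)).card : ℝ) ≤
      X * (2 * (4 * Real.exp 5 * k / (ε ^ 2 * (S.card * Wp P))) ^ k + (1 / 2) ^ b * (4 * Real.exp 7 / ε ^ 2) ^ k) +
      ((S.card + S.card * Wp P) / (ε * (S.card * Wp P))) ^ (2 * k) *
        (((Jd : ℝ) + 2) * (((2 : ℝ) ^ 2 ^ Jd) ^ (10 * b)) ^ 2))
    (q r T y z k b X : ℕ) (ε : ℝ) (hε : 0 < ε) (hε1 : ε ≤ 1) (hk : 1 ≤ k) (hb : C0 * (2 * k) ≤ b) (hb2 : 2 ≤ b)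
    (hy : 4 * k + 10 ≤ y) (hyT : y ≤ T) (hTz : T ≤ z) (hq : ∀ p, p.Prime → y < p → p ≤ z → ¬ p ∣ q)
    (hS : ∀ m, |(Rg y m T : ℝ) - T * Vz y| ≤ ε / 4 * (T * Vz y))
    (hT : 16 * T * Vz z * Vz y ≤ (Vz T) ^ 2 * y)
    (hμ : 4 * Real.exp 6 * k / (ε / 4) ^ 2 ≤ 1 / 2 * (T * Vz z))
    (hbk : (1 / 2 : ℝ) ^ b * (4 * Real.exp 7 / (ε / 4) ^ 2) ^ k ≤ Real.exp (-k))
    (hεz : 4 / ε ≤ z) :
    (((Icc 1 X).filter (fun l => Bad ε z (q * l + r) T)).card : ℝ) ≤
      Qy y * (1 + (X / Qy y : ℝ) * (3 * Real.exp (-k)) + (z : ℝ) ^ (6 * k + 41 * b)) := by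
  have hyz : y ≤ z := hyT.trans hTz
  have hQ0 := Qy_pos y
  have hQ0r : (0 : ℝ) < Qy y := by exact_mod_cast hQ0
  have hk0 : (0 : ℝ) < k := by exact_mod_cast hk
  have hz2 : 14 ≤ z := by omega
  have hzr : (14 : ℝ) ≤ z := by exact_mod_cast hz2
  set V := Vz z with hV
  have hV0 : 0 < V := Vz_pos z
  have hT0 : (0 : ℝ) < T := by exact_mod_cast (by omega : 0 < T)
  set ε1 := ε / 4 with hε1d
  have hε10 : 0 < ε1 := by positivity
  have hε11 : ε1 ≤ 1 / 4 := by rw [hε1d]; linarith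
  have hTV : 0 < T * V := by positivity
  -- one class
  have hclass : ∀ c : ℕ, (((Icc 1 (X / Qy y)).filter (fun l => Bad ε z (q * (Qy y * l + c) + r) T)).card : ℝ) ≤
      (X / Qy y : ℝ) * (3 * Real.exp (-k)) + (z : ℝ) ^ (6 * k + 41 * b) := by
    intro c
    set P := Pyz y z with hP
    set S := Sy y (q * c + r) T with hSd
    have hScard : (S.card : ℝ) = (Rg y (q * c + r) T : ℝ) := rfl
    have hS1 := hS (q * c + r)
    rw [← hScard] at hS1
    have hVy := Vz_pos y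
    have hW : Wp P = V / Vz y := Wp_Pyz' y z hyz
    have hW0 : 0 < Wp P := by rw [hW]; positivity
    set μ : ℝ := S.card * Wp P with hμd
    have hμ1 : |μ - T * V| ≤ ε1 * (T * V) := by
      have e1 : μ - T * V = ((S.card : ℝ) - T * Vz y) * Wp P := by
        rw [hμd, sub_mul, hW]
        field_simp
      rw [e1, abs_mul, abs_of_pos hW0]
      calc |(S.card : ℝ) - T * Vz y| * Wp P ≤ ε1 * (T * Vz y) * Wp P := mul_le_mul_of_nonneg_right hS1 hW0.le
        _ = ε1 * (T * V) := by rw [hW]; field_simp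
    have hμ2 : 1 / 2 * (T * V) ≤ μ := by
      have := (abs_le.1 hμ1).1
      nlinarith
    have hμ3 : μ ≤ 2 * (T * V) := by
      have := (abs_le.1 hμ1).2
      nlinarith
    have hμ0 : 0 < μ := by linarith
    have hμk : 4 * Real.exp 6 * k / ε1 ^ 2 ≤ μ := hμ.trans hμ2
    have hkμ : (k : ℝ) ≤ μ := by
      refine le_trans ?_ hμk
      rw [le_div_iff₀ (by positivity)]
      have h1 : (1 : ℝ) ≤ Real.exp 6 := Real.one_le_exp (by norm_num)
      have h2 : ε1 ^ 2 ≤ 1 := pow_le_one₀ hε10.le (by linarith)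
      calc (k : ℝ) * ε1 ^ 2 ≤ k * 1 := mul_le_mul_of_nonneg_left h2 hk0.le
        _ = 1 * k := by ring
        _ ≤ 4 * Real.exp 6 * k := mul_le_mul_of_nonneg_right (by linarith) hk0.le
    have hPp : ∀ p ∈ P, p.Prime ∧ y < p ∧ p ≤ 2 ^ 2 ^ (JJ z) ∧ ¬ p ∣ q * Qy y := by
      intro p hp
      obtain ⟨h1, h2, h3⟩ := mem_Pyz.1 hp
      refine ⟨h3, h1, (h2.trans (JJ_lt z).le), ?_⟩
      intro hd
      rcases (Nat.Prime.dvd_mul h3).1 hd with h4 | h4
      · exact hq p h3 h1 h2 h4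
      · unfold Qy at h4
        rw [Prime.dvd_finsetProd_iff h3.prime] at h4
        obtain ⟨p', hp', h5⟩ := h4
        have h6 := (Nat.prime_dvd_prime_iff_eq h3 (mem_pz.1 hp').2).1 h5
        have h7 := (mem_pz.1 hp').1
        omega
    have e1 : P.filter (fun p => T < p) = Pyz T z := by
      ext p
      rw [mem_filter, mem_Pyz, mem_Pyz]
      constructor
      · rintro ⟨⟨_, h1, h2⟩, h3⟩
        exact ⟨h3, h1, h2⟩
      · rintro ⟨h1, h2, h3⟩
        exact ⟨⟨by omega, h2, h3⟩, h1⟩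
    have e2 : P.filter (fun p => p ≤ T) = Pyz y T := by
      ext p
      rw [mem_filter, mem_Pyz, mem_Pyz]
      constructor
      · rintro ⟨⟨h0, _, h2⟩, h3⟩
        exact ⟨h0, h3, h2⟩
      · rintro ⟨h1, h2, h3⟩
        exact ⟨⟨h1, by omega, h3⟩, h2⟩
    have hT' : 16 * Wp (P.filter (fun p => T < p)) * T ≤ Wp (P.filter (fun p => p ≤ T)) * y := by
      rw [e1, e2, Wp_Pyz' T z hTz, Wp_Pyz' y T hyT]
      have hVT := Vz_pos T
      rw [div_mul_eq_mul_div, mul_div_assoc', div_mul_eq_mul_div, div_le_div_iff₀ hVT hVy]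
      calc 16 * Vz z * T * Vz y = 16 * T * Vz z * Vz y := by ring
        _ ≤ Vz T ^ 2 * y := hT
        _ = Vz T * y * Vz T := by ring
    have key := hcore (q * Qy y) (q * c + r) P S y T k b (JJ z) (X / Qy y) ε1 hk hb hb2 hy hPp (filter_subset _ _) hT' hkμ hε10
    rw [← hμd] at key
    -- comparison of the bad events
    have hsub : ((Icc 1 (X / Qy y)).filter (fun l => Bad ε z (q * (Qy y * l + c) + r) T)) ⊆
        (Icc 1 (X / Qy y)).filter (fun l => ε1 * μ < |(XX (q * Qy y) (q * c + r) P S l : ℝ) - μ|) := by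
      intro l hl
      rw [mem_filter] at hl ⊢
      refine ⟨hl.1, ?_⟩
      have h1 := hl.2
      unfold Bad at h1
      rw [Rg_eq_XX q r y z T c l hyz] at h1
      by_contra h2
      push Not at h2
      set x : ℝ := (XX (q * Qy y) (q * c + r) P S l : ℝ)
      have h3 : |x - T * V| ≤ |x - μ| + |μ - T * V| := by
        have := abs_add_le (x - μ) (μ - T * V)
        rwa [sub_add_sub_cancel] at this
      have h4 : ε1 * μ ≤ ε1 * (2 * (T * V)) := mul_le_mul_of_nonneg_left hμ3 hε10.le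
      have h5 : |x - T * V| ≤ ε * (T * V) := by
        calc |x - T * V| ≤ ε1 * (2 * (T * V)) + ε1 * (T * V) := by linarith
          _ ≤ ε * (T * V) := by rw [hε1d]; nlinarith
      exact absurd h1 (not_lt.2 h5)
    have hcard : (((Icc 1 (X / Qy y)).filter (fun l => Bad ε z (q * (Qy y * l + c) + r) T)).card : ℝ) ≤
        (((Icc 1 (X / Qy y)).filter (fun l => ε1 * μ < |(XX (q * Qy y) (q * c + r) P S l : ℝ) - μ|)).card : ℝ) := by
      exact_mod_cast card_le_card hsub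
    refine hcard.trans ?_
    have key' : (((Icc 1 (X / Qy y)).filter (fun l => ε1 * μ < |(XX (q * Qy y) (q * c + r) P S l : ℝ) - μ|)).card : ℝ) ≤
        ((X / Qy y : ℕ) : ℝ) * (2 * (4 * Real.exp 5 * k / (ε1 ^ 2 * μ)) ^ k + (1 / 2) ^ b * (4 * Real.exp 7 / ε1 ^ 2) ^ k) +
      ((S.card + μ) / (ε1 * μ)) ^ (2 * k) *
        (((JJ z : ℝ) + 2) * (((2 : ℝ) ^ 2 ^ (JJ z)) ^ (10 * b)) ^ 2) := by
      convert key using 5
    refine key'.trans ?_
    apply add_le_add
    · have h1 : ((X / Qy y : ℕ) : ℝ) ≤ (X / Qy y : ℝ) := Nat.cast_div_le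
      have h2 : (4 * Real.exp 5 * k / (ε1 ^ 2 * μ)) ^ k ≤ Real.exp (-k) := by
        have h3 : 4 * Real.exp 5 * k / (ε1 ^ 2 * μ) ≤ Real.exp (-1) := by
          rw [div_le_iff₀ (by positivity)]
          rw [div_le_iff₀ (by positivity)] at hμk
          have h4 : Real.exp (-1) * (ε1 ^ 2 * μ) ≥ Real.exp (-1) * (4 * Real.exp 6 * k) := by
            apply mul_le_mul_of_nonneg_left _ (Real.exp_pos _).le
            linarith
          have h5 : Real.exp (-1) * (4 * Real.exp 6 * k) = 4 * Real.exp 5 * k := by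
            have : Real.exp (-1) * Real.exp 6 = Real.exp 5 := by rw [← Real.exp_add]; norm_num
            calc Real.exp (-1) * (4 * Real.exp 6 * k) = 4 * (Real.exp (-1) * Real.exp 6) * k := by ring
              _ = _ := by rw [this]
          linarith
        calc (4 * Real.exp 5 * k / (ε1 ^ 2 * μ)) ^ k ≤ (Real.exp (-1)) ^ k := pow_le_pow_left₀ (by positivity) h3 _
          _ = Real.exp (-k) := by rw [← Real.exp_nat_mul]; congr 1; ring
      have h3 : 2 * (4 * Real.exp 5 * k / (ε1 ^ 2 * μ)) ^ k + (1 / 2) ^ b * (4 * Real.exp 7 / ε1 ^ 2) ^ k ≤ 3 * Real.exp (-k) := by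
        linarith
      calc ((X / Qy y : ℕ) : ℝ) * (2 * (4 * Real.exp 5 * k / (ε1 ^ 2 * μ)) ^ k + (1 / 2) ^ b * (4 * Real.exp 7 / ε1 ^ 2) ^ k)
          ≤ ((X / Qy y : ℕ) : ℝ) * (3 * Real.exp (-k)) := mul_le_mul_of_nonneg_left h3 (Nat.cast_nonneg _)
        _ ≤ _ := mul_le_mul_of_nonneg_right h1 (by positivity)
    · have h1 : (((JJ z : ℝ) + 2) * (((2 : ℝ) ^ 2 ^ (JJ z)) ^ (10 * b)) ^ 2) ≤ (z : ℝ) ^ (41 * b) := by
        have h2 : (JJ z : ℝ) + 2 ≤ (z : ℝ) ^ 2 := by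
          have : JJ z + 2 ≤ z ^ 2 := (JJ_small z (by omega)).trans (by nlinarith)
          exact_mod_cast this
        have h3 : ((2 : ℝ) ^ 2 ^ (JJ z)) ≤ (z : ℝ) ^ 2 := by exact_mod_cast JJ_le z (by omega)
        calc (((JJ z : ℝ) + 2) * (((2 : ℝ) ^ 2 ^ (JJ z)) ^ (10 * b)) ^ 2) ≤ (z : ℝ) ^ 2 * (((z : ℝ) ^ 2) ^ (10 * b)) ^ 2 := by
              gcongr
          _ = (z : ℝ) ^ (2 + 40 * b) := by
              rw [← pow_mul, ← pow_mul, ← pow_add]
              congr 1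
              ring
          _ ≤ (z : ℝ) ^ (41 * b) := pow_le_pow_right₀ (by linarith) (by omega)
      have h2 : (S.card + μ) / (ε1 * μ) ≤ (z : ℝ) ^ 3 := by
        have h3 : (S.card : ℝ) = μ / Wp P := by rw [hμd]; field_simp
        have h4 : 1 / (z : ℝ) ≤ Wp P := by
          have h5 := Vz_ge z (by omega)
          refine h5.trans ?_
          rw [hW, le_div_iff₀ hVy]
          have := Vz_le_one y
          nlinarith
        have h5 : (S.card + μ) / (ε1 * μ) = (1 / Wp P + 1) * (1 / ε1) := by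
          rw [h3]
          field_simp
        rw [h5]
        have h6 : 1 / Wp P ≤ z := by
          rw [div_le_iff₀ hW0]
          rw [div_le_iff₀ (by linarith)] at h4
          linarith
        have h7 : 1 / ε1 ≤ z := by
          rw [hε1d, one_div_div]
          exact hεz
        calc (1 / Wp P + 1) * (1 / ε1) ≤ (z + 1) * z := by
              apply mul_le_mul (by linarith) h7 (by positivity) (by linarith)
          _ ≤ (z : ℝ) ^ 2 * z := mul_le_mul_of_nonneg_right (by nlinarith) (by linarith)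
          _ = (z : ℝ) ^ 3 := by ring
      calc ((S.card + μ) / (ε1 * μ)) ^ (2 * k) * (((JJ z : ℝ) + 2) * (((2 : ℝ) ^ 2 ^ (JJ z)) ^ (10 * b)) ^ 2)
          ≤ ((z : ℝ) ^ 3) ^ (2 * k) * (z : ℝ) ^ (41 * b) := by
            apply mul_le_mul (pow_le_pow_left₀ (by positivity) h2 _) h1 (by positivity) (by positivity)
        _ = (z : ℝ) ^ (6 * k + 41 * b) := by
            rw [← pow_mul, ← pow_add]
            congr 1
            ring
  -- all classes
  set B := (Icc 1 X).filter (fun l => Bad ε z (q * l + r) T) with hB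
  have hfib : B.card = ∑ c ∈ range (Qy y), (B.filter (fun l => l % Qy y = c)).card := by
    apply card_eq_sum_card_fiberwise
    intro l _
    exact mem_coe.2 (mem_range.2 (Nat.mod_lt _ hQ0))
  rw [hfib]
  push_cast
  have hone : ∀ c ∈ range (Qy y), ((B.filter (fun l => l % Qy y = c)).card : ℝ) ≤
      1 + (X / Qy y : ℝ) * (3 * Real.exp (-k)) + (z : ℝ) ^ (6 * k + 41 * b) := by
    intro c _
    have h1 : (B.filter (fun l => l % Qy y = c)).card ≤
        (insert 0 ((Icc 1 (X / Qy y)).filter (fun l => Bad ε z (q * (Qy y * l + c) + r) T))).card := by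
      apply card_le_card_of_injOn (fun l => l / Qy y)
      · intro l hl
        rw [mem_coe, mem_filter, hB, mem_filter, mem_Icc] at hl
        obtain ⟨⟨⟨h1, h2⟩, h3⟩, h4⟩ := hl
        rw [mem_coe, mem_insert]
        rcases Nat.eq_zero_or_pos (l / Qy y) with h5 | h5
        · exact Or.inl h5
        · right
          rw [mem_filter, mem_Icc]
          refine ⟨⟨h5, Nat.div_le_div_right h2⟩, ?_⟩
          have h6 : Qy y * (l / Qy y) + c = l := by rw [← h4]; exact Nat.div_add_mod l _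
          rw [h6]
          exact h3
      · intro l hl l' hl' h
        rw [mem_coe, mem_filter] at hl hl'
        have h6 := Nat.div_add_mod l (Qy y)
        have h7 := Nat.div_add_mod l' (Qy y)
        simp only at h
        rw [hl.2] at h6
        rw [hl'.2] at h7
        rw [← h6, ← h7, h]
    have h2 : (insert 0 ((Icc 1 (X / Qy y)).filter (fun l => Bad ε z (q * (Qy y * l + c) + r) T))).card ≤
        ((Icc 1 (X / Qy y)).filter (fun l => Bad ε z (q * (Qy y * l + c) + r) T)).card + 1 := card_insert_le _ _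
    have h3 : ((B.filter (fun l => l % Qy y = c)).card : ℝ) ≤
        (((Icc 1 (X / Qy y)).filter (fun l => Bad ε z (q * (Qy y * l + c) + r) T)).card : ℝ) + 1 := by
      exact_mod_cast h1.trans h2
    have h4 := hclass c
    linarith
  refine (sum_le_sum hone).trans (le_of_eq ?_)
  rw [sum_const, card_range, nsmul_eq_mul]

end Pool.Agent.H36.RW
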