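import Mathlib

/-! Growth of elementary functions. -/

set_option autoImplicit false

namespace Pool.Agent.H36.RW
open Filter

lemma ev_log_pow (a η : ℝ) (hη : 0 < η) (n : ℕ) : ∀ᶠ L : ℝ in atTop, a * Real.log L ^ n ≤ L ^ η := by
  have h1 := (isLittleO_log_rpow_rpow_atTop (n : ℝ) hη).bound (show 0 < 1 / (|a| + 1) by positivity)
  filter_upwards [h1, eventually_ge_atTop (1 : ℝ)] with L h2 h3
  have hl : 0 ≤ Real.log L := Real.log_nonneg h3
  rw [Real.rpow_natCast, Real.norm_of_nonneg (by positivity), Real.norm_of_nonneg (by positivity)] at h2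
  have h4 : (|a| + 1) * Real.log L ^ n ≤ L ^ η := by
    rw [div_mul_eq_mul_div, one_mul, le_div_iff₀ (by positivity)] at h2
    linarith
  have h5 : a * Real.log L ^ n ≤ (|a| + 1) * Real.log L ^ n := by
    apply mul_le_mul_of_nonneg_right _ (by positivity)
    linarith [le_abs_self a]
  linarith

lemma ev_log_add (a b η : ℝ) (hη : 0 < η) : ∀ᶠ L : ℝ in atTop, a * Real.log L + b ≤ L ^ η := by
  filter_upwards [ev_log_pow (|a| + |b|) η hη 1, eventually_ge_atTop (Real.exp 1)] with L h1 h2
  have h3 : 1 ≤ Real.log L := by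
    rw [Real.le_log_iff_exp_le (lt_of_lt_of_le (Real.exp_pos 1) h2)]
    exact h2
  rw [pow_one] at h1
  have h4 : a * Real.log L ≤ |a| * Real.log L := mul_le_mul_of_nonneg_right (le_abs_self a) (by linarith)
  have h5 : b ≤ |b| * Real.log L := by
    have := le_abs_self b
    nlinarith [abs_nonneg b]
  linarith

lemma ev_pow_exp (a c : ℝ) (hc : 0 < c) (n : ℕ) : ∀ᶠ L : ℝ in atTop, a * L ^ n ≤ Real.exp (c * L) := by
  have h1 := (isLittleO_pow_exp_pos_mul_atTop n hc).bound (show 0 < 1 / (|a| + 1) by positivity)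
  filter_upwards [h1, eventually_ge_atTop (1 : ℝ)] with L h2 h3
  rw [Real.norm_of_nonneg (by positivity), Real.norm_of_nonneg (by positivity)] at h2
  have h4 : (|a| + 1) * L ^ n ≤ Real.exp (c * L) := by
    rw [div_mul_eq_mul_div, one_mul, le_div_iff₀ (by positivity)] at h2
    linarith
  have h5 : a * L ^ n ≤ (|a| + 1) * L ^ n := by
    apply mul_le_mul_of_nonneg_right _ (by positivity)
    linarith [le_abs_self a]
  linarith

/-- `L ^ n ≤ exp (c L / log L)` -/
lemma ev_exp_div (a c : ℝ) (hc : 0 < c) (n : ℕ) : ∀ᶠ L : ℝ in atTop, a * L ^ n ≤ Real.exp (c * L / Real.log L) := by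
  filter_upwards [ev_log_pow ((|a| + 1 + n) / c) 1 one_pos 2, eventually_ge_atTop (Real.exp 1)] with L h1 h2
  have hL0 : 0 < L := lt_of_lt_of_le (Real.exp_pos 1) h2
  have h3 : 1 ≤ Real.log L := by
    rw [Real.le_log_iff_exp_le hL0]
    exact h2
  rw [Real.rpow_one] at h1
  have h4 : (|a| + n) * Real.log L ≤ c * L / Real.log L := by
    rw [le_div_iff₀ (by linarith)]
    have h5 : (|a| + 1 + n) / c * Real.log L ^ 2 * c ≤ L * c := mul_le_mul_of_nonneg_right h1 hc.le
    have h6 : (|a| + 1 + n) / c * Real.log L ^ 2 * c = (|a| + 1 + n) * Real.log L ^ 2 := by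
      field_simp
    rw [h6] at h5
    nlinarith
  calc a * L ^ n ≤ Real.exp |a| * L ^ n := by
        apply mul_le_mul_of_nonneg_right _ (by positivity)
        linarith [le_abs_self a, Real.add_one_le_exp |a|]
    _ = Real.exp (|a| + n * Real.log L) := by
        rw [Real.exp_add]
        congr 1
        rw [Real.exp_nat_mul, Real.exp_log hL0]
    _ ≤ Real.exp ((|a| + n) * Real.log L) := by
        apply Real.exp_le_exp.2
        nlinarith [abs_nonneg a]
    _ ≤ _ := Real.exp_le_exp.2 h4

end Pool.Agent.H36.RW
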