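import Mathlib
import Pool.Agent.H36.RW.Disc2

/-!
Rough numbers in windows: all lengths at the same time.
-/

set_option autoImplicit false

namespace Pool.Agent.H36.RW
open Finset Pool.Agent.H373R2.T7 Filter

lemma Rg_add (z m T U : ℕ) : Rg z m (T + U) = Rg z m T + Rg z (m + T) U := by
  unfold Rg
  have h1 : Icc 1 (T + U) = Icc 1 T ∪ Icc (T + 1) (T + U) := by
    ext x
    simp only [mem_union, mem_Icc]
    omega
  have h2 : Disjoint (Icc 1 T) (Icc (T + 1) (T + U)) := by
    rw [disjoint_left]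
    intro x hx hx'
    rw [mem_Icc] at hx hx'
    omega
  rw [h1, filter_union, card_union_of_disjoint (disjoint_filter_filter h2)]
  congr 1
  symm
  apply card_bij (fun h _ => T + h)
  · intro h hh
    rw [mem_filter, mem_Icc] at hh ⊢
    refine ⟨by omega, fun p hp => ?_⟩
    rw [← add_assoc]
    exact hh.2 p hp
  · intro a _ b _ hab
    omega
  · intro x hx
    rw [mem_filter, mem_Icc] at hx
    refine ⟨x - T, ?_, by omega⟩
    rw [mem_filter, mem_Icc]
    refine ⟨by omega, fun p hp => ?_⟩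
    have : m + T + (x - T) = m + x := by omega
    rw [this]
    exact hx.2 p hp

lemma Rg_mono (z m T U : ℕ) (h : T ≤ U) : Rg z m T ≤ Rg z m U := by
  obtain ⟨d, rfl⟩ := Nat.exists_eq_add_of_le h
  rw [Rg_add]
  omega

/-- many blocks -/
lemma Rg_blocks (z m T0 : ℕ) (V ε : ℝ) : ∀ n : ℕ,
    (∀ j < n, |(Rg z (m + j * T0) T0 : ℝ) - T0 * V| ≤ ε * (T0 * V)) →
    |(Rg z m (n * T0) : ℝ) - (n * T0) * V| ≤ ε * ((n * T0) * V) := by
  intro n
  induction n with
  | zero =>
    intro _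
    have : Rg z m 0 = 0 := by unfold Rg; simp
    simp [this]
  | succ n ih =>
    intro h
    have h1 := ih (fun j hj => h j (by omega))
    have h2 := h n (by omega)
    rw [Nat.succ_mul, Rg_add]
    push_cast
    have e1 : (Rg z m (n * T0) : ℝ) + Rg z (m + n * T0) T0 - (n + 1) * T0 * V =
        ((Rg z m (n * T0) : ℝ) - (n * T0) * V) + ((Rg z (m + n * T0) T0 : ℝ) - T0 * V) := by ring
    rw [e1]
    refine (abs_add_le _ _).trans ?_
    linarith

open Classical in
theorem disc_all (A : ℕ) (δ ε : ℝ) (hδ : 0 < δ) (hε : 0 < ε) (hε1 : ε ≤ 1) :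
    ∃ c0 : ℝ, 0 < c0 ∧ ∀ c : ℝ, 0 < c → c ≤ c0 → ∀ᶠ L : ℝ in atTop, ∀ X : ℕ, Real.exp L ≤ X →
      ∀ q r : ℕ, (∀ p : ℕ, p.Prime → Real.log L < p → p ≤ zL c L → ¬ p ∣ q) →
      (((Icc 1 X).filter (fun l => ∃ T : ℕ, δ * L ≤ T ∧ (T : ℝ) ≤ L ^ A ∧
        Bad ε (zL c L) (q * l + r) T)).card : ℝ) ≤ X / L ^ A := by
  set δ1 : ℝ := δ * ε / 8 with hδ1
  have hδ10 : 0 < δ1 := by positivity
  obtain ⟨c0, hc0, hd⟩ := disc_ev (2 * A + 1) δ1 (ε / 4) hδ10 (by positivity) (by linarith)
  refine ⟨c0, hc0, fun c hc hcc => ?_⟩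
  filter_upwards [hd c hc hcc, eventually_ge_atTop (2 : ℝ), eventually_ge_atTop (1 / δ1)] with L h hL2' hL2
  intro X hX q r hq
  have hL1 : 1 ≤ L := by linarith
  have hL0 : 0 < L := by linarith
  have hLδ : 1 ≤ δ1 * L := by
    rw [div_le_iff₀ hδ10] at hL2
    linarith
  set T0 : ℕ := ⌈δ1 * L⌉₊ with hT0
  have hT0a : δ1 * L ≤ T0 := Nat.le_ceil _
  have hT0b : (T0 : ℝ) < δ1 * L + 1 := Nat.ceil_lt_add_one (by positivity)
  have hT01 : (1 : ℝ) ≤ T0 := by linarith
  have hT0r : (0 : ℝ) < T0 := by linarith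
  set V := Vz (zL c L) with hV
  have hV0 : 0 < V := Vz_pos _
  set J : ℕ := ⌊L ^ A⌋₊ with hJ
  have hJle : (J : ℝ) ≤ L ^ A := Nat.floor_le (by positivity)
  -- one block
  have hblock : ∀ j : ℕ, (((Icc 1 X).filter (fun l => Bad (ε / 4) (zL c L) (q * l + (r + j * T0)) T0)).card : ℝ) ≤
      X / L ^ (2 * A + 1) := fun j => h X hX T0 hT0a (by linarith) q (r + j * T0) hq
  -- the inclusion
  have hsub : ((Icc 1 X).filter (fun l => ∃ T : ℕ, δ * L ≤ T ∧ (T : ℝ) ≤ L ^ A ∧ Bad ε (zL c L) (q * l + r) T)) ⊆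
      (range (J + 1)).biUnion (fun j => (Icc 1 X).filter (fun l => Bad (ε / 4) (zL c L) (q * l + (r + j * T0)) T0)) := by
    intro l hl
    rw [mem_filter] at hl
    obtain ⟨hl1, T, hT1, hT2, hbad⟩ := hl
    by_contra hno
    have hgood : ∀ j < J + 1, |(Rg (zL c L) (q * l + r + j * T0) T0 : ℝ) - T0 * V| ≤ ε / 4 * (T0 * V) := by
      intro j hj
      by_contra h3
      apply hno
      rw [mem_biUnion]
      refine ⟨j, mem_range.2 hj, ?_⟩
      rw [mem_filter]
      refine ⟨hl1, ?_⟩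
      unfold Bad
      rw [← add_assoc]
      exact not_le.1 h3
    set n := T / T0 with hn
    have hTJ : T ≤ J := by
      rw [hJ]
      exact Nat.le_floor hT2
    have hT0n : 0 < T0 := by exact_mod_cast hT0r
    have hnT : n * T0 ≤ T := Nat.div_mul_le_self _ _
    have hnT' : T < (n + 1) * T0 := by
      rw [add_mul, one_mul, mul_comm]
      exact Nat.lt_mul_div_succ T hT0n |>.trans_eq (by ring)
    have hnJ : n + 1 ≤ J + 1 := by
      have : n ≤ T := Nat.div_le_self _ _
      omega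
    have h1 := Rg_blocks (zL c L) (q * l + r) T0 V (ε / 4) n (fun j hj => hgood j (by omega))
    have h2 := Rg_blocks (zL c L) (q * l + r) T0 V (ε / 4) (n + 1) (fun j hj => hgood j (by omega))
    have h3 : (Rg (zL c L) (q * l + r) (n * T0) : ℝ) ≤ Rg (zL c L) (q * l + r) T := by
      exact_mod_cast Rg_mono _ _ _ _ hnT
    have h4 : (Rg (zL c L) (q * l + r) T : ℝ) ≤ Rg (zL c L) (q * l + r) ((n + 1) * T0) := by
      exact_mod_cast Rg_mono _ _ _ _ hnT'.le
    push_cast at h2
    set x : ℝ := (Rg (zL c L) (q * l + r) T : ℝ) with hx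
    have hn1 : (n : ℝ) * T0 ≤ T := by exact_mod_cast hnT
    have hn2 : (T : ℝ) < (n + 1) * T0 := by exact_mod_cast hnT'
    have hTT : (T0 : ℝ) ≤ ε / 4 * T := by
      have h5 : ε / 4 * (δ * L) ≤ ε / 4 * T := mul_le_mul_of_nonneg_left hT1 (by positivity)
      have h6 : ε / 4 * (δ * L) = 2 * (δ1 * L) := by rw [hδ1]; ring
      linarith
    have hT00 : (0 : ℝ) ≤ T := Nat.cast_nonneg T
    have ha := (abs_le.1 h1).1
    have hb := (abs_le.1 h2).2
    -- upper
    have hup : x ≤ (1 + ε) * (T * V) := by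
      have h5 : (n + 1 : ℝ) * T0 ≤ (1 + ε / 4) * T := by
        have : (n + 1 : ℝ) * T0 = n * T0 + T0 := by ring
        rw [this]
        linarith
      calc x ≤ (1 + ε / 4) * ((n + 1) * T0 * V) := by linarith
        _ ≤ (1 + ε / 4) * ((1 + ε / 4) * T * V) := by gcongr
        _ = (1 + ε / 4) * (1 + ε / 4) * (T * V) := by ring
        _ ≤ (1 + ε) * (T * V) := by
            apply mul_le_mul_of_nonneg_right _ (by positivity)
            nlinarith
    have hlo : (1 - ε) * (T * V) ≤ x := by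
      have h5 : (1 - ε / 4) * T ≤ n * T0 := by
        have : (n + 1 : ℝ) * T0 = n * T0 + T0 := by ring
        rw [this] at hn2
        linarith
      calc (1 - ε) * (T * V) ≤ (1 - ε / 4) * (1 - ε / 4) * (T * V) := by
            apply mul_le_mul_of_nonneg_right _ (by positivity)
            nlinarith
        _ = (1 - ε / 4) * ((1 - ε / 4) * T * V) := by ring
        _ ≤ (1 - ε / 4) * (n * T0 * V) := by
            apply mul_le_mul_of_nonneg_left _ (by linarith)
            exact mul_le_mul_of_nonneg_right h5 hV0.le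
        _ ≤ x := by linarith
    unfold Bad at hbad
    rw [← hx, ← hV] at hbad
    have h5 : |x - T * V| ≤ ε * (T * V) := by
      rw [abs_le]
      constructor <;> linarith
    exact absurd hbad (not_lt.2 h5)
  have hcard : (((Icc 1 X).filter (fun l => ∃ T : ℕ, δ * L ≤ T ∧ (T : ℝ) ≤ L ^ A ∧ Bad ε (zL c L) (q * l + r) T)).card : ℝ) ≤
      ∑ j ∈ range (J + 1), (((Icc 1 X).filter (fun l => Bad (ε / 4) (zL c L) (q * l + (r + j * T0)) T0)).card : ℝ) := by
    have h1 := (card_le_card hsub).trans card_biUnion_le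
    exact_mod_cast h1
  refine hcard.trans ((sum_le_sum fun j _ => hblock j).trans ?_)
  rw [sum_const, card_range, nsmul_eq_mul]
  push_cast
  have hX0 : (0 : ℝ) < X := (Real.exp_pos L).trans_le hX
  rw [mul_div_assoc', div_le_div_iff₀ (by positivity) (by positivity)]
  have h1 : (J : ℝ) + 1 ≤ 2 * L ^ A := by
    have : 1 ≤ L ^ A := one_le_pow₀ hL1
    linarith
  calc ((J : ℝ) + 1) * X * L ^ A ≤ (2 * L ^ A) * X * L ^ A := by gcongr
    _ = X * (L ^ (2 * A) * 2) := by
        have e1 : L ^ (2 * A) = L ^ A * L ^ A := by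
          rw [← pow_add]
          congr 1
          ring
        rw [e1]
        ring
    _ ≤ X * (L ^ (2 * A) * L) := by gcongr
    _ = X * L ^ (2 * A + 1) := by rw [pow_succ]

end Pool.Agent.H36.RW
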