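import Mathlib
import Pool.Agent.H36.RW.Multi

/-!
Almost every dilate: Borel-Cantelli.
-/

set_option autoImplicit false

namespace Pool.Agent.H36.RW
open Finset Pool.Agent.H373R2.T7 Filter MeasureTheory

lemma a_tendsto (a : ℕ → ℝ) (κ : ℝ) (hκ : 0 < κ) (ha : ∀ᶠ n : ℕ in atTop, Real.exp ((n : ℝ) ^ κ) ≤ a n) :
    Tendsto a atTop atTop := by
  apply tendsto_atTop_mono' atTop ha
  exact Real.tendsto_exp_atTop.comp ((tendsto_rpow_atTop hκ).comp tendsto_natCast_atTop_atTop)

open Classical in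
lemma bc (a : ℕ → ℝ) (κ : ℝ) (hκ : 0 < κ) (ha : ∀ᶠ n : ℕ in atTop, Real.exp ((n : ℝ) ^ κ) ≤ a n) (A : ℕ)
    (hA : 2 ≤ A * κ) (bad : ℕ → ℕ → Prop) (hbad : ∀ᶠ n in atTop, ∀ X : ℕ, a n ≤ X →
      (((Icc 1 X).filter (fun l => bad n l)).card : ℝ) ≤ X / (Real.log (a n)) ^ A) :
    ∀ᵐ α : ℝ ∂volume, 0 < α → ∀ᶠ n in atTop, ¬ bad n (⌈α * a n⌉₊ - 1) := by
  have key : ∀ B : ℕ, ∀ᵐ α : ℝ ∂volume, 0 < α → α ≤ B → ∀ᶠ n in atTop, ¬ bad n (⌈α * a n⌉₊ - 1) := by
    intro B
    have hat := a_tendsto a κ hκ ha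
    have hlt : Tendsto (fun n => Real.log (a n)) atTop atTop := Real.tendsto_log_atTop.comp hat
    have hexp := hlt.eventually (ev_pow_exp 1 1 one_pos A)
    obtain ⟨N0, hN0⟩ := eventually_atTop.1 (hbad.and (ha.and ((hat.eventually_ge_atTop 1).and
      ((hlt.eventually_ge_atTop 1).and (hexp.and (eventually_ge_atTop 1))))))
    set S : ℕ → Set ℝ := fun n => if N0 ≤ n then {α | 0 < α ∧ α ≤ B ∧ bad n (⌈α * a n⌉₊ - 1)} else ∅ with hS
    have hmeas : ∀ n, volume (S n) ≤ ENNReal.ofReal ((B + 4) / (n : ℝ) ^ 2) := by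
      intro n
      by_cases hn : N0 ≤ n
      swap
      · simp only [hS, if_neg hn, measure_empty]
        exact zero_le
      simp only [hS, if_pos hn]
      obtain ⟨h1, h2, h3, h4, h5, h6⟩ := hN0 n hn
      set x := a n with hx
      set L := Real.log x with hL
      have hx0 : 0 < x := by linarith
      have hL0 : 0 < L := by linarith
      set X : ℕ := ⌈(B + 1 : ℝ) * x⌉₊ with hX
      have hXge : (B + 1 : ℝ) * x ≤ X := Nat.le_ceil _
      have hXlt : (X : ℝ) < (B + 1) * x + 1 := Nat.ceil_lt_add_one (by positivity)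
      have hxX : x ≤ X := by
        have : (0 : ℝ) ≤ B := Nat.cast_nonneg B
        nlinarith
      have h7 := h1 X hxX
      set F := (Icc 1 X).filter (fun l => bad n l) with hF
      have hsub : {α : ℝ | 0 < α ∧ α ≤ B ∧ bad n (⌈α * x⌉₊ - 1)} ⊆
          Set.Icc 0 (1 / x) ∪ ⋃ l ∈ F, Set.Icc ((l : ℝ) / x) ((l + 1 : ℝ) / x) := by
        rintro α ⟨g1, g2, g3⟩
        have g4 : 0 < α * x := by positivity
        have g5 : 0 < ⌈α * x⌉₊ := Nat.ceil_pos.2 g4
        set l := ⌈α * x⌉₊ - 1 with hl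
        have g6 : α * x ≤ l + 1 := by
          have : (⌈α * x⌉₊ : ℝ) = l + 1 := by
            have : ⌈α * x⌉₊ = l + 1 := by omega
            rw [this]; push_cast; rfl
          rw [← this]
          exact Nat.le_ceil _
        have g7 : (l : ℝ) ≤ α * x := by
          have : l < ⌈α * x⌉₊ := by omega
          exact (Nat.lt_ceil.1 this).le
        rcases Nat.eq_zero_or_pos l with g8 | g8
        · left
          rw [g8] at g6
          refine ⟨g1.le, ?_⟩
          rw [le_div_iff₀ hx0]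
          simpa using g6
        · right
          simp only [Set.mem_iUnion]
          refine ⟨l, ?_, ?_⟩
          · rw [hF, mem_filter, mem_Icc]
            refine ⟨⟨g8, ?_⟩, g3⟩
            have : (l : ℝ) ≤ X := by
              have : α * x ≤ B * x := mul_le_mul_of_nonneg_right g2 hx0.le
              nlinarith
            exact_mod_cast this
          · rw [Set.mem_Icc, div_le_iff₀ hx0, le_div_iff₀ hx0]
            exact ⟨g7, g6⟩
      have hvol : volume ({α : ℝ | 0 < α ∧ α ≤ B ∧ bad n (⌈α * x⌉₊ - 1)}) ≤ ENNReal.ofReal ((1 + F.card) * (1 / x)) := by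
        calc volume ({α : ℝ | 0 < α ∧ α ≤ B ∧ bad n (⌈α * x⌉₊ - 1)})
            ≤ volume (Set.Icc 0 (1 / x) ∪ ⋃ l ∈ F, Set.Icc ((l : ℝ) / x) ((l + 1 : ℝ) / x)) := measure_mono hsub
          _ ≤ volume (Set.Icc 0 (1 / x)) + volume (⋃ l ∈ F, Set.Icc ((l : ℝ) / x) ((l + 1 : ℝ) / x)) := measure_union_le _ _
          _ ≤ volume (Set.Icc 0 (1 / x)) + ∑ l ∈ F, volume (Set.Icc ((l : ℝ) / x) ((l + 1 : ℝ) / x)) := by
              gcongr
              exact measure_biUnion_finset_le _ _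
          _ = ENNReal.ofReal (1 / x) + ∑ _l ∈ F, ENNReal.ofReal (1 / x) := by
              rw [Real.volume_Icc, sub_zero]
              congr 1
              apply sum_congr rfl
              intro l _
              rw [Real.volume_Icc]
              congr 1
              ring
          _ = ENNReal.ofReal ((1 + F.card) * (1 / x)) := by
              rw [sum_const, ← ENNReal.ofReal_nsmul, ← ENNReal.ofReal_add (by positivity) (by positivity), nsmul_eq_mul]
              congr 1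
              ring
      refine hvol.trans (ENNReal.ofReal_le_ofReal ?_)
      have hxL : L ^ A ≤ x := by
        rw [one_mul, one_mul, Real.exp_log hx0] at h5
        exact h5
      have hLA : (n : ℝ) ^ 2 ≤ L ^ A := by
        have hn1 : (1 : ℝ) ≤ n := by exact_mod_cast h6
        have g1 : (n : ℝ) ^ κ ≤ L := by
          have := Real.log_le_log (Real.exp_pos _) h2
          rwa [Real.log_exp] at this
        calc (n : ℝ) ^ 2 = (n : ℝ) ^ (2 : ℝ) := by norm_num
          _ ≤ (n : ℝ) ^ (A * κ) := Real.rpow_le_rpow_of_exponent_le hn1 hA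
          _ = ((n : ℝ) ^ κ) ^ A := by
              rw [← Real.rpow_natCast, ← Real.rpow_mul (by positivity), mul_comm]
          _ ≤ L ^ A := pow_le_pow_left₀ (by positivity) g1 A
      have hn2 : (0 : ℝ) < (n : ℝ) ^ 2 := by
        have hn1 : (1 : ℝ) ≤ n := by exact_mod_cast h6
        positivity
      have hLA0 : 0 < L ^ A := by positivity
      calc (1 + (F.card : ℝ)) * (1 / x) ≤ (1 + X / L ^ A) * (1 / x) := by gcongr
        _ ≤ (1 + (B + 3) * x / L ^ A) * (1 / x) := by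
            gcongr
            nlinarith
        _ = 1 / x + (B + 3) / L ^ A := by field_simp
        _ ≤ 1 / L ^ A + (B + 3) / L ^ A := by gcongr
        _ = (B + 4) / L ^ A := by ring
        _ ≤ (B + 4) / (n : ℝ) ^ 2 := by gcongr
    have hsum : (∑' n, volume (S n)) ≠ ⊤ := by
      have h1 : Summable (fun n : ℕ => ((B : ℝ) + 4) / (n : ℝ) ^ 2) := by
        have := (Real.summable_one_div_nat_pow (p := 2)).2 (by norm_num)
        have h2 := this.mul_left ((B : ℝ) + 4)
        refine h2.congr fun n => ?_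
        ring
      exact ne_top_of_le_ne_top h1.tsum_ofReal_ne_top (ENNReal.tsum_le_tsum hmeas)
    filter_upwards [ae_eventually_notMem hsum] with α hα h0 hB
    filter_upwards [hα, eventually_ge_atTop N0] with n hn hn0 hb
    apply hn
    simp only [hS, if_pos hn0]
    exact ⟨h0, hB, hb⟩
  have h := ae_all_iff.2 key
  filter_upwards [h] with α hα h0
  obtain ⟨B, hB⟩ := exists_nat_ge α
  exact hα B h0 hB

/-- the law for almost every dilate: integer form -/
theorem ae_law (a : ℕ → ℝ) (κ : ℝ) (hκ : 0 < κ) (ha : ∀ᶠ n : ℕ in atTop, Real.exp ((n : ℝ) ^ κ) ≤ a n) (A : ℕ)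
    (δ ε : ℝ) (hδ : 0 < δ) (hε : 0 < ε) (hε1 : ε ≤ 1) :
    ∃ c0 : ℝ, 0 < c0 ∧ ∀ c : ℝ, 0 < c → c ≤ c0 → ∀ᵐ α : ℝ ∂volume, 0 < α → ∀ᶠ n in atTop,
      ∀ T : ℕ, δ * Real.log (a n) ≤ T → (T : ℝ) ≤ Real.log (a n) ^ A →
        ¬ Bad ε (zL c (Real.log (a n))) (⌈α * a n⌉₊ - 1) T := by
  classical
  obtain ⟨A2, hA2⟩ := exists_nat_ge (2 / κ)
  set A' := max A A2 with hA'
  have hA'2 : 2 ≤ (A' : ℝ) * κ := by
    have h1 : (A2 : ℝ) ≤ A' := by exact_mod_cast le_max_right _ _
    have h2 := mul_le_mul_of_nonneg_right (hA2.trans h1) hκ.le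
    rwa [div_mul_cancel₀ _ hκ.ne'] at h2
  obtain ⟨c0, hc0, h⟩ := disc_all A' δ ε hδ hε hε1
  refine ⟨c0, hc0, fun c hc hcc => ?_⟩
  have hat := a_tendsto a κ hκ ha
  have hlt : Tendsto (fun n => Real.log (a n)) atTop atTop := Real.tendsto_log_atTop.comp hat
  have h1 := hlt.eventually (h c hc hcc)
  have h2 := bc a κ hκ ha A' hA'2 (fun n l => ∃ T : ℕ, δ * Real.log (a n) ≤ T ∧ (T : ℝ) ≤ Real.log (a n) ^ A' ∧
    Bad ε (zL c (Real.log (a n))) l T) (by
      filter_upwards [h1, hat.eventually_gt_atTop 0] with n h3 h4 X hX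
      have h5 := h3 X (by rwa [Real.exp_log h4]) 1 0 (fun p hp _ _ hd => hp.one_lt.ne' (Nat.dvd_one.1 hd))
      simp only [one_mul, add_zero] at h5
      convert h5 using 4)
  filter_upwards [h2] with α hα h0
  filter_upwards [hα h0, hlt.eventually_ge_atTop 1] with n hn hn1 T hT1 hT2 hb
  apply hn
  refine ⟨T, hT1, hT2.trans (pow_le_pow_right₀ hn1 (le_max_left _ _)), hb⟩

end Pool.Agent.H36.RW
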