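import Mathlib
import Pool.Agent.H36.RW.AE
import Pool.Graph.R_pool_sql_team_seeded_b0a926ef.R306.One.NthP

/-!
Real form of the law for rough numbers above almost every dilate.
-/

set_option autoImplicit false

namespace Pool.Agent.H36.RW
open Finset Pool.Agent.H373R2.T7 Filter MeasureTheory

/-- no prime factor `≤ z` -/
def Rough (z m : ℕ) : Prop := ∀ q : ℕ, q.Prime → q ∣ m → z < q

lemma rough_iff (z m : ℕ) : Rough z m ↔ ∀ p ∈ pz z, ¬ p ∣ m := by
  constructor
  · intro h p hp hd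
    have h1 := mem_pz.1 hp
    have := h p h1.2 hd
    omega
  · intro h q hq hd
    by_contra h1
    exact h q (mem_pz.2 ⟨by omega, hq⟩) hd

open Classical in
/-- number of the integers without prime factors `≤ z` in `[x, x + H]` -/
noncomputable def roughIn (z : ℕ) (x H : ℝ) : ℕ := ((Icc ⌈x⌉₊ ⌊x + H⌋₊).filter (fun m => Rough z m)).card

lemma roughIn_eq (z : ℕ) (x H : ℝ) (hx : 0 < x) (hH : 1 ≤ H) :
    roughIn z x H = Rg z (⌈x⌉₊ - 1) (⌊x + H⌋₊ - (⌈x⌉₊ - 1)) := by
  classical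
  have h1 : 0 < ⌈x⌉₊ := Nat.ceil_pos.2 hx
  have h2 : ⌈x⌉₊ ≤ ⌊x + H⌋₊ := by
    apply Nat.le_floor
    have := (Nat.ceil_lt_add_one hx.le).le
    linarith
  set m := ⌈x⌉₊ - 1 with hm
  set M := ⌊x + H⌋₊ with hM
  have hc : ⌈x⌉₊ = m + 1 := by omega
  unfold roughIn Rg
  rw [hc]
  symm
  apply card_bij (fun h _ => m + h)
  · intro h hh
    rw [mem_filter, mem_Icc] at hh ⊢
    refine ⟨by omega, (rough_iff z (m + h)).2 hh.2⟩
  · intro a _ b _ hab
    omega
  · intro y hy
    rw [mem_filter, mem_Icc] at hy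
    refine ⟨y - m, ?_, by omega⟩
    rw [mem_filter, mem_Icc]
    refine ⟨by omega, ?_⟩
    have : m + (y - m) = y := by omega
    rw [this]
    exact (rough_iff z y).1 hy.2

theorem real_law (a : ℕ → ℝ) (κ : ℝ) (hκ : 0 < κ) (ha : ∀ᶠ n : ℕ in atTop, Real.exp ((n : ℝ) ^ κ) ≤ a n) (A : ℕ)
    (δ ε : ℝ) (hδ : 0 < δ) (hε : 0 < ε) :
    ∃ c0 : ℝ, 0 < c0 ∧ ∀ c : ℝ, 0 < c → c ≤ c0 → ∀ᵐ α : ℝ ∂volume, 0 < α → ∀ᶠ n in atTop,
      ∀ H : ℝ, δ * Real.log (a n) ≤ H → H ≤ Real.log (a n) ^ A →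
        |(roughIn (zL c (Real.log (a n))) (α * a n) H : ℝ) - Vz (zL c (Real.log (a n))) * H| ≤
          ε * (Vz (zL c (Real.log (a n))) * H) := by
  set ε1 := min ε 1 / 2 with hε1
  have hm0 : 0 < min ε 1 := lt_min hε one_pos
  have hm1 : min ε 1 ≤ 1 := min_le_right _ _
  have hmε : min ε 1 ≤ ε := min_le_left _ _
  obtain ⟨c0, hc0, h⟩ := ae_law a κ hκ ha (A + 1) (δ / 2) ε1 (by positivity) (by positivity) (by linarith)
  refine ⟨c0, hc0, fun c hc hcc => ?_⟩
  have hat := a_tendsto a κ hκ ha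
  have hlt : Tendsto (fun n => Real.log (a n)) atTop atTop := Real.tendsto_log_atTop.comp hat
  filter_upwards [h c hc hcc] with α hα h0
  filter_upwards [hα h0, hlt.eventually_ge_atTop 2, hlt.eventually_ge_atTop (2 / δ), hat.eventually_gt_atTop 0,
    hlt.eventually_ge_atTop ((1 + 2 / min ε 1) / δ)] with n hn h1 h2 h3 h4 H hH1 hH2
  set L := Real.log (a n) with hL
  set z := zL c L with hz
  set V := Vz z with hV
  have hV0 : 0 < V := Vz_pos z
  have hL0 : 0 < L := by linarith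
  rw [div_le_iff₀ hδ] at h2 h4
  have hH0 : 1 ≤ H := by linarith
  have hHε : 1 + 2 / min ε 1 ≤ H := by linarith
  have hx : 0 < α * a n := by positivity
  rw [roughIn_eq z (α * a n) H hx hH0]
  set x := α * a n with hxd
  set m := ⌈x⌉₊ - 1 with hm
  have hc1 : 0 < ⌈x⌉₊ := Nat.ceil_pos.2 hx
  have hm1' : (m : ℝ) + 1 = ⌈x⌉₊ := by
    have : m + 1 = ⌈x⌉₊ := by omega
    exact_mod_cast this
  have hmx : (m : ℝ) < x := by
    have := Nat.ceil_lt_add_one hx.le
    linarith
  have hmx2 : x ≤ m + 1 := by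
    rw [hm1']
    exact Nat.le_ceil _
  set M := ⌊x + H⌋₊ with hM
  have hM1 : (M : ℝ) ≤ x + H := Nat.floor_le (by positivity)
  have hM2 : x + H < M + 1 := Nat.lt_floor_add_one _
  have hmM : m ≤ M := by
    have : (m : ℝ) < M + 1 := by linarith
    exact_mod_cast Nat.lt_add_one_iff.1 (by exact_mod_cast this)
  set T := M - m with hT
  have hTr : (T : ℝ) = M - m := by
    rw [hT, Nat.cast_sub hmM]
  have hT1 : H - 1 ≤ T := by linarith
  have hT2 : (T : ℝ) ≤ H + 1 := by linarith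
  have hb := hn T (by linarith) (by
    rw [pow_succ]
    have h5 : 1 ≤ L ^ A := one_le_pow₀ (by linarith)
    nlinarith)
  unfold Bad at hb
  rw [not_lt] at hb
  have e1 : (Rg z m T : ℝ) - V * H = ((Rg z m T : ℝ) - T * V) + (T - H) * V := by ring
  rw [e1]
  have h6 : |((T : ℝ) - H) * V| ≤ 1 * V := by
    rw [abs_mul, abs_of_pos hV0]
    apply mul_le_mul_of_nonneg_right _ hV0.le
    rw [abs_le]
    constructor <;> linarith
  calc |((Rg z m T : ℝ) - T * V) + (T - H) * V| ≤ |(Rg z m T : ℝ) - T * V| + |((T : ℝ) - H) * V| := abs_add_le _ _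
    _ ≤ ε1 * (T * V) + 1 * V := add_le_add hb h6
    _ ≤ ε1 * ((H + 1) * V) + 1 * V := by gcongr
    _ = (ε1 * (H + 1) + 1) * V := by ring
    _ ≤ (min ε 1 * H) * V := by
        apply mul_le_mul_of_nonneg_right _ hV0.le
        rw [hε1]
        have h7 : min ε 1 * (1 + 2 / min ε 1) ≤ min ε 1 * H := mul_le_mul_of_nonneg_left hHε hm0.le
        have h8 : min ε 1 * (1 + 2 / min ε 1) = min ε 1 + 2 := by field_simp
        linarith
    _ ≤ (ε * H) * V := by gcongr
    _ = ε * (V * H) := by ring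

lemma length_le (z : ℝ) (hz : 0 < z) (L : List ℕ) (hL : ∀ p ∈ L, z ≤ (p : ℝ)) :
    z ^ L.length ≤ (L.prod : ℝ) := by
  induction L with
  | nil => simp
  | cons a l ih =>
    rw [List.length_cons, List.prod_cons, pow_succ, Nat.cast_mul]
    have h1 := ih (fun p hp => hL p (List.mem_cons_of_mem _ hp))
    have h2 := hL a List.mem_cons_self
    calc z ^ l.length * z ≤ (l.prod : ℝ) * a := mul_le_mul h1 h2 hz.le (Nat.cast_nonneg _)
      _ = a * l.prod := mul_comm _ _

/-- a number without prime factors `≤ z` has few prime factors -/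
lemma rough_length (z m : ℕ) (hz : 2 ≤ z) (hm : 0 < m) (h : Rough z m) :
    (m.primeFactorsList.length : ℝ) * Real.log z ≤ Real.log m := by
  have hz0 : (0 : ℝ) < z := by exact_mod_cast (by omega : 0 < z)
  have h1 := length_le z hz0 m.primeFactorsList (fun p hp => by
    have h2 := h p (Nat.prime_of_mem_primeFactorsList hp) (Nat.dvd_of_mem_primeFactorsList hp)
    exact_mod_cast h2.le)
  have h3 : ((m.primeFactorsList.prod : ℕ) : ℝ) = m := by rw [Nat.prod_primeFactorsList hm.ne']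
  rw [h3] at h1
  have h4 := Real.log_le_log (by positivity) h1
  rwa [Real.log_pow] at h4

end Pool.Agent.H36.RW
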