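import Mathlib
import Pool.Agent.H36.RW.Disc2
import Pool.Agent.H36.RW.Multi

/-!
Rough numbers in windows: exceptional sets of proportion `exp (-k)`, uniformly in `k ≤ L ^ η`.
-/

set_option autoImplicit false

namespace Pool.Agent.H36.RW
open Finset Pool.Agent.H373R2.T7 Filter

/-- the level -/
noncomputable def zk (c L : ℝ) (k : ℕ) : ℕ := ⌊Real.exp (c * L / k)⌋₊

lemma zk_le (c L : ℝ) (k : ℕ) : (zk c L k : ℝ) ≤ Real.exp (c * L / k) := Nat.floor_le (Real.exp_pos _).le

lemma ev_exp_sqrt (a c : ℝ) (hc : 0 < c) (n : ℕ) : ∀ᶠ L : ℝ in atTop, a * L ^ n ≤ Real.exp (c * √L) := by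
  have h1 := Real.tendsto_sqrt_atTop.eventually (ev_pow_exp a c hc (2 * n))
  filter_upwards [h1, eventually_ge_atTop (0 : ℝ)] with L h2 h3
  rwa [pow_mul, Real.sq_sqrt h3] at h2

open Classical in
theorem disc_k (δ ε : ℝ) (hδ : 0 < δ) (hε : 0 < ε) (hε1 : ε ≤ 1) :
    ∃ c0 η : ℝ, 0 < c0 ∧ 0 < η ∧ η ≤ 1 / 2 ∧ ∀ c : ℝ, 0 < c → c ≤ c0 → ∀ᶠ L : ℝ in atTop, ∀ k : ℕ, 1 ≤ k → (k : ℝ) ≤ L ^ η →
      ∀ X : ℕ, Real.exp L ≤ X →
      ∀ T : ℕ, δ * L ≤ T → (T : ℝ) ≤ (δ + 1) * L → ∀ q r : ℕ,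
      (∀ p : ℕ, p.Prime → Real.log L < p → p ≤ zk c L k → ¬ p ∣ q) →
      (((Icc 1 X).filter (fun l => Bad ε (zk c L k) (q * l + r) T)).card : ℝ) ≤ 4 * Real.exp (-k) * X := by
  obtain ⟨C0, hC0, hcore⟩ := core
  obtain ⟨c1, hc1, hVl⟩ := Vz_lower
  obtain ⟨C1, hC1, hVu⟩ := Vz_upper
  obtain ⟨K1, x0, hK1, hsm⟩ := small_count (ε / 8) (by positivity)
  -- the constant B
  obtain ⟨B1, hB1⟩ := exists_pow_lt_of_lt_one (show 0 < Real.exp (-1) / (4 * Real.exp 7 / (ε / 4) ^ 2) by positivity)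
    (show (1 / 2 : ℝ) < 1 by norm_num)
  set B := max (2 * C0) (max B1 2) with hB
  have hBC : 2 * C0 ≤ B := le_max_left _ _
  have hB2 : 2 ≤ B := (le_max_right _ _).trans (le_max_right _ _)
  have hBB : (1 / 2 : ℝ) ^ B * (4 * Real.exp 7 / (ε / 4) ^ 2) ≤ Real.exp (-1) := by
    have h1 : (1 / 2 : ℝ) ^ B ≤ (1 / 2) ^ B1 :=
      pow_le_pow_of_le_one (by norm_num) (by norm_num) ((le_max_left _ _).trans (le_max_right _ _))
    have h2 := h1.trans hB1.le
    rwa [le_div_iff₀ (by positivity)] at h2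
  set c0 : ℝ := min (min 1 (δ * c1 * ε ^ 2 / (128 * Real.exp 6))) (1 / (4 * (6 + 41 * B))) with hc0
  set η : ℝ := 1 / (6 * K1) with hη
  have hK1r : (1 : ℝ) ≤ K1 := by exact_mod_cast hK1
  have hη0 : 0 < η := by rw [hη]; positivity
  have hη6 : η ≤ 1 / 6 := by
    rw [hη]
    apply one_div_le_one_div_of_le (by norm_num)
    linarith
  refine ⟨c0, η / 2, by rw [hc0]; positivity, by positivity, by linarith, fun c hc hcc => ?_⟩
  have hca : c ≤ δ * c1 * ε ^ 2 / (128 * Real.exp 6) := hcc.trans ((min_le_left _ _).trans (min_le_right _ _))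
  have hcb : c ≤ 1 / (4 * (6 + 41 * B)) := hcc.trans (min_le_right _ _)
  have hcc1 : c ≤ 1 := hcc.trans ((min_le_left _ _).trans (min_le_left _ _))
  have hηK : η * K1 = 1 / 6 := by rw [hη]; field_simp
  have hM : ∀ M : ℝ, ∀ᶠ L : ℝ in atTop, M ≤ L ^ η := fun M => by
    filter_upwards [ev_log_add 0 M η hη0] with L h1
    linarith
  filter_upwards [eventually_ge_atTop (Real.exp 1), (tendsto_rpow_atTop (show (0 : ℝ) < η / 2 by positivity)).eventually_ge_atTop 6,
    ev_log_add 1 1 η hη0,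
    hM (x0 + 2), (tendsto_rpow_atTop (show (0 : ℝ) < 1 / 3 by norm_num)).eventually_ge_atTop (64 / ε ^ 2 / δ + 1 / δ),
    ev_exp_sqrt (δ + 2) c hc 1, ev_exp_sqrt (4 / ε + 16) c hc 1, ev_log_pow (256 * C1 * (δ + 1) / (c1 ^ 2 * c)) (η / 2) (by positivity) 2,
    ev_exp_sqrt 1 (c / 2) (by positivity) 1, (tendsto_rpow_atTop (show (0 : ℝ) < 2 / 3 by norm_num)).eventually_ge_atTop 4,
    eventually_ge_atTop (17 : ℝ), eventually_ge_atTop (δ + 1)] with
    L hLe f1 f1' f2 f3 f4 f5 f6 f7 f8 f10 f11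
  intro k hk1 hkL X hX T hT1 hT2 q r hq
  have hL0 : 0 < L := by linarith
  have hL1 : 1 ≤ L := by linarith
  set ℓ := Real.log L with hℓ
  have hℓ1 : 1 ≤ ℓ := by
    rw [hℓ, Real.le_log_iff_exp_le hL0]
    exact hLe
  have hℓ0 : 0 < ℓ := by linarith
  set z := zk c L k with hz
  set y : ℕ := ⌊L ^ η⌋₊ with hy
  set b := B * k with hb
  have hk0 : (0 : ℝ) < k := by exact_mod_cast hk1
  have hyle : (y : ℝ) ≤ L ^ η := Nat.floor_le (by positivity)
  have hylt : L ^ η < y + 1 := Nat.lt_floor_add_one _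
  have hL13 : L ^ η ≤ L ^ (1 / 6 : ℝ) := Real.rpow_le_rpow_of_exponent_le (by linarith) hη6
  have hyL : (y : ℝ) ≤ L ^ (1 / 6 : ℝ) := hyle.trans hL13
  have hηη : L ^ η = L ^ (η / 2) * L ^ (η / 2) := by
    rw [← Real.rpow_add hL0]
    congr 1
    ring
  have hksq : (k : ℝ) ≤ √L := by
    refine hkL.trans ?_
    rw [Real.sqrt_eq_rpow]
    exact Real.rpow_le_rpow_of_exponent_le hL1 (by linarith)
  have hsL : √L * √L = L := Real.mul_self_sqrt hL0.le
  have hsL0 : 0 < √L := Real.sqrt_pos.2 hL0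
  have hckL : c * √L ≤ c * L / k := by
    rw [le_div_iff₀ hk0]
    calc c * √L * k ≤ c * √L * √L := mul_le_mul_of_nonneg_left hksq (by positivity)
      _ = c * L := by rw [mul_assoc, hsL]
  -- the conditions
  have g1 : 4 * k + 10 ≤ y := by
    have h1 : ((4 * k + 10 : ℕ) : ℝ) < y + 1 := by
      push_cast
      nlinarith
    have h2 : 4 * k + 10 < y + 1 := by exact_mod_cast h1
    omega
  have hy1 : 1 ≤ y := by omega
  have hyr : (1 : ℝ) ≤ y := by exact_mod_cast hy1
  have hδL : 1 ≤ δ * L ^ (1 / 3 : ℝ) := by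
    have h1 : 1 / δ ≤ L ^ (1 / 3 : ℝ) := by
      have : 0 ≤ 64 / ε ^ 2 / δ := by positivity
      linarith
    rw [div_le_iff₀ hδ] at h1
    linarith
  have hδL2 : 64 / ε ^ 2 ≤ δ * L ^ (1 / 3 : ℝ) := by
    have h1 : 64 / ε ^ 2 / δ ≤ L ^ (1 / 3 : ℝ) := by
      have : 0 ≤ 1 / δ := by positivity
      linarith
    rw [div_le_iff₀ hδ] at h1
    linarith
  have hLsplit : L = L ^ (1 / 3 : ℝ) * L ^ (2 / 3 : ℝ) := by
    rw [← Real.rpow_add hL0]
    norm_num
  have hL23 : L ^ (2 / 3 : ℝ) ≤ T := by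
    calc L ^ (2 / 3 : ℝ) = 1 * L ^ (2 / 3 : ℝ) := (one_mul _).symm
      _ ≤ (δ * L ^ (1 / 3 : ℝ)) * L ^ (2 / 3 : ℝ) := mul_le_mul_of_nonneg_right hδL (by positivity)
      _ = δ * L := by rw [mul_assoc, ← hLsplit]
      _ ≤ T := hT1
  have g2 : y ≤ T := by
    have h1 : (y : ℝ) ≤ T := by
      calc (y : ℝ) ≤ L ^ (1 / 6 : ℝ) := hyL
        _ ≤ L ^ (2 / 3 : ℝ) := Real.rpow_le_rpow_of_exponent_le hL1 (by norm_num)
        _ ≤ T := hL23
    exact_mod_cast h1
  have hT0 : (0 : ℝ) < T := lt_of_lt_of_le (by linarith) (by exact_mod_cast g2 : (y : ℝ) ≤ T)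
  have hzlt : Real.exp (c * L / k) < z + 1 := Nat.lt_floor_add_one _
  have hexpz : ∀ s : ℝ, s ≤ Real.exp (c * √L) → s ≤ Real.exp (c * L / k) := fun s hs =>
    hs.trans (Real.exp_le_exp.2 hckL)
  have g3 : T ≤ z := by
    have h1 : (T : ℝ) < z + 1 := by
      rw [pow_one] at f4
      have h2 := hexpz _ f4
      have : (δ + 1) * L ≤ (δ + 2) * L := by nlinarith
      linarith
    exact_mod_cast Nat.lt_add_one_iff.1 (by exact_mod_cast h1)
  have g4 : ∀ p, p.Prime → y < p → p ≤ z → ¬ p ∣ q := by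
    intro p hp h1 h2
    apply hq p hp _ h2
    have h3 : (y : ℝ) + 1 ≤ p := by exact_mod_cast h1
    linarith
  have g5 : ∀ m, |(Rg y m T : ℝ) - T * Vz y| ≤ ε / 4 * (T * Vz y) := by
    intro m
    have h1 : x0 ≤ y := by
      have h2 : (x0 : ℝ) < y := by linarith
      exact_mod_cast h2.le
    have h2 : y ^ K1 ≤ T := by
      have h3 : ((y ^ K1 : ℕ) : ℝ) ≤ T := by
        push_cast
        calc (y : ℝ) ^ K1 ≤ (L ^ η) ^ K1 := pow_le_pow_left₀ (by linarith) hyle _
          _ = L ^ (1 / 6 : ℝ) := by rw [← Real.rpow_natCast, ← Real.rpow_mul hL0.le, hηK]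
          _ ≤ L ^ (2 / 3 : ℝ) := Real.rpow_le_rpow_of_exponent_le hL1 (by norm_num)
          _ ≤ T := hL23
      exact_mod_cast h3
    have h3 := hsm T y h1 h2 m
    have h4 : √(T : ℝ) ≤ ε / 8 * (T * Vz y) := by
      have h5 := Vz_ge y hy1
      have h6 : 8 * y / ε ≤ √(T : ℝ) := by
        apply Real.le_sqrt_of_sq_le
        calc (8 * (y : ℝ) / ε) ^ 2 = 64 / ε ^ 2 * (y : ℝ) ^ 2 := by ring
          _ ≤ δ * L ^ (1 / 3 : ℝ) * (L ^ (1 / 6 : ℝ)) ^ 2 := by
              apply mul_le_mul hδL2 (pow_le_pow_left₀ (by linarith) hyL 2) (by positivity) (by positivity)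
          _ = δ * (L ^ (1 / 3 : ℝ) * L ^ (1 / 3 : ℝ)) := by
              have : (L ^ (1 / 6 : ℝ)) ^ 2 = L ^ (1 / 3 : ℝ) := by
                rw [← Real.rpow_natCast, ← Real.rpow_mul hL0.le]
                norm_num
              rw [this]
              ring
          _ ≤ δ * L := by
              apply mul_le_mul_of_nonneg_left _ hδ.le
              rw [← Real.rpow_add hL0]
              calc L ^ ((1 / 3 : ℝ) + 1 / 3) ≤ L ^ (1 : ℝ) := Real.rpow_le_rpow_of_exponent_le hL1 (by norm_num)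
                _ = L := Real.rpow_one L
          _ ≤ T := hT1
      have h7 : √(T : ℝ) * √(T : ℝ) = T := Real.mul_self_sqrt hT0.le
      have h8 : 0 < √(T : ℝ) := Real.sqrt_pos.2 hT0
      have h9 : 8 * y / ε * √(T : ℝ) ≤ T := by
        calc 8 * y / ε * √(T : ℝ) ≤ √(T : ℝ) * √(T : ℝ) := mul_le_mul_of_nonneg_right h6 h8.le
          _ = T := h7
      calc √(T : ℝ) = ε / 8 * (8 * y / ε * √(T : ℝ)) * (1 / y) := by field_simp
        _ ≤ ε / 8 * T * (1 / y) := by gcongr
        _ ≤ ε / 8 * T * Vz y := mul_le_mul_of_nonneg_left h5 (by positivity)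
        _ = _ := by ring
    linarith
  have hz2 : 2 ≤ z := by omega
  have hzr : (1 : ℝ) < z := by exact_mod_cast hz2
  have hlogz : Real.log z ≤ c * L / k := by
    rw [← Real.log_exp (c * L / k)]
    exact Real.log_le_log (by linarith) (zk_le c L k)
  have hlogz0 : 0 < Real.log z := Real.log_pos hzr
  have hlogz2 : c * L / (2 * k) ≤ Real.log z := by
    have h1 : Real.exp (c * L / (2 * k)) ≤ z := by
      have h2 : Real.exp (c * L / k) = Real.exp (c * L / (2 * k)) * Real.exp (c * L / (2 * k)) := by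
        rw [← Real.exp_add]
        congr 1
        field_simp
        ring
      have h3 : 3 ≤ Real.exp (c * L / (2 * k)) := by
        rw [pow_one, one_mul] at f7
        have h4 : c / 2 * √L ≤ c * L / (2 * k) := by
          calc c / 2 * √L = (c * √L) / 2 := by ring
            _ ≤ (c * L / k) / 2 := by linarith
            _ = c * L / (2 * k) := by field_simp
        have h5 := Real.exp_le_exp.2 h4
        linarith
      rw [h2] at hzlt
      have h4 : 3 * Real.exp (c * L / (2 * k)) ≤ Real.exp (c * L / (2 * k)) * Real.exp (c * L / (2 * k)) :=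
        mul_le_mul_of_nonneg_right h3 (Real.exp_pos _).le
      linarith
    calc c * L / (2 * k) = Real.log (Real.exp (c * L / (2 * k))) := (Real.log_exp _).symm
      _ ≤ Real.log z := Real.log_le_log (Real.exp_pos _) h1
  have hT2' : 2 ≤ T := by omega
  have hTr : (1 : ℝ) < T := by exact_mod_cast hT2'
  have hlogT : Real.log T ≤ 2 * ℓ := by
    have h1 : (T : ℝ) ≤ L ^ 2 := by nlinarith
    have h2 := Real.log_le_log hT0 h1
    rwa [Real.log_pow] at h2
  have hlogT0 : 0 < Real.log T := Real.log_pos hTr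
  have g6 : 16 * T * Vz z * Vz y ≤ (Vz T) ^ 2 * y := by
    have h1 : Vz z ≤ C1 / (c * L / (2 * k)) := (hVu z hz2).trans (div_le_div_of_nonneg_left hC1.le (by positivity) hlogz2)
    have h2 : c1 / (2 * ℓ) ≤ Vz T := (div_le_div_of_nonneg_left hc1.le hlogT0 hlogT).trans (hVl T hT2')
    have h3 : L ^ η / 2 ≤ y := by linarith
    calc 16 * T * Vz z * Vz y ≤ 16 * ((δ + 1) * L) * (C1 / (c * L / (2 * k))) * 1 := by
          have := Vz_le_one y
          have := (Vz_pos z).le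
          have := (Vz_pos y).le
          gcongr
      _ = 32 * C1 * (δ + 1) / c * k := by field_simp; ring
      _ ≤ 32 * C1 * (δ + 1) / c * L ^ (η / 2) := mul_le_mul_of_nonneg_left hkL (by positivity)
      _ = (c1 / (2 * ℓ)) ^ 2 * ((256 * C1 * (δ + 1) / (c1 ^ 2 * c) * ℓ ^ 2) * L ^ (η / 2) / 2) := by
          field_simp
          ring
      _ ≤ (c1 / (2 * ℓ)) ^ 2 * (L ^ (η / 2) * L ^ (η / 2) / 2) := by
          apply mul_le_mul_of_nonneg_left _ (by positivity)
          apply div_le_div_of_nonneg_right _ (by norm_num)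
          exact mul_le_mul_of_nonneg_right f6 (by positivity)
      _ = (c1 / (2 * ℓ)) ^ 2 * (L ^ η / 2) := by rw [← hηη]
      _ ≤ (Vz T) ^ 2 * y := by
          apply mul_le_mul (pow_le_pow_left₀ (by positivity) h2 2) h3 (by positivity) (by positivity)
  have g7 : 4 * Real.exp 6 * k / (ε / 4) ^ 2 ≤ 1 / 2 * (T * Vz z) := by
    have h1 : c1 / (c * L / k) ≤ Vz z := (div_le_div_of_nonneg_left hc1.le hlogz0 hlogz).trans (hVl z hz2)
    calc 4 * Real.exp 6 * k / (ε / 4) ^ 2 = 64 * Real.exp 6 / ε ^ 2 * k := by field_simp; ring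
      _ ≤ δ * c1 / (2 * c) * k := by
          apply mul_le_mul_of_nonneg_right _ hk0.le
          rw [div_le_div_iff₀ (by positivity) (by positivity)]
          rw [le_div_iff₀ (by positivity)] at hca
          nlinarith
      _ = 1 / 2 * ((δ * L) * (c1 / (c * L / k))) := by field_simp
      _ ≤ 1 / 2 * (T * Vz z) := by gcongr
  have g8 : (1 / 2 : ℝ) ^ b * (4 * Real.exp 7 / (ε / 4) ^ 2) ^ k ≤ Real.exp (-k) := by
    rw [hb, pow_mul, ← mul_pow]
    calc ((1 / 2 : ℝ) ^ B * (4 * Real.exp 7 / (ε / 4) ^ 2)) ^ k ≤ (Real.exp (-1)) ^ k :=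
          pow_le_pow_left₀ (by positivity) hBB _
      _ = Real.exp (-k) := by rw [← Real.exp_nat_mul]; congr 1; ring
  have g9 : 4 / ε ≤ z := by
    rw [pow_one] at f5
    have h0 := hexpz _ f5
    have h1 : 4 / ε + 16 ≤ (4 / ε + 16) * L := by
      have : 0 < 4 / ε + 16 := by positivity
      nlinarith
    linarith
  have key := disc C0 (by
      intro q r P S y T k b Jd X ε
      exact hcore q r P S y T k b Jd X ε) q r T y z k b X ε hε hε1 hk1 (by
      rw [hb]
      calc C0 * (2 * k) = (2 * C0) * k := by ring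
        _ ≤ B * k := Nat.mul_le_mul_right _ hBC) (by rw [hb]; nlinarith) g1 g2 g3 g4 g5 g6 g7 g8 g9
  refine key.trans ?_
  -- final computation
  have hX1 : (0 : ℝ) < X := (Real.exp_pos L).trans_le hX
  have hQpos : (0 : ℝ) < Qy y := by exact_mod_cast Qy_pos y
  have hQle : (Qy y : ℝ) ≤ Real.exp (L / 4) := by
    have h1 : (Qy y : ℝ) ≤ (y : ℝ) ^ y := by exact_mod_cast Qy_le y
    refine h1.trans ?_
    have h2 : (y : ℝ) ≤ Real.exp y := by linarith [Real.add_one_le_exp (y : ℝ)]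
    calc (y : ℝ) ^ y ≤ (Real.exp y) ^ y := pow_le_pow_left₀ (by linarith) h2 _
      _ = Real.exp (y * y) := by rw [← Real.exp_nat_mul]
      _ ≤ Real.exp (L / 4) := by
          apply Real.exp_le_exp.2
          have h3 : (y : ℝ) * y ≤ L ^ (1 / 6 : ℝ) * L ^ (1 / 6 : ℝ) := mul_le_mul hyL hyL (by linarith) (by positivity)
          have h4 : L ^ (1 / 6 : ℝ) * L ^ (1 / 6 : ℝ) = L ^ (1 / 3 : ℝ) := by
            rw [← Real.rpow_add hL0]
            norm_num
          have h5 : 4 * L ^ (1 / 3 : ℝ) ≤ L := by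
            calc 4 * L ^ (1 / 3 : ℝ) ≤ L ^ (2 / 3 : ℝ) * L ^ (1 / 3 : ℝ) := mul_le_mul_of_nonneg_right f8 (by positivity)
              _ = L := by rw [mul_comm, ← hLsplit]
          linarith
  have hzp : (z : ℝ) ^ (6 * k + 41 * b) ≤ Real.exp (L / 4) := by
    calc (z : ℝ) ^ (6 * k + 41 * b) ≤ (Real.exp (c * L / k)) ^ (6 * k + 41 * b) :=
          pow_le_pow_left₀ (by linarith) (zk_le c L k) _
      _ = Real.exp (((6 * k + 41 * b : ℕ) : ℝ) * (c * L / k)) := by rw [← Real.exp_nat_mul]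
      _ ≤ Real.exp (L / 4) := by
          apply Real.exp_le_exp.2
          have h1 : ((6 * k + 41 * b : ℕ) : ℝ) = (6 + 41 * B) * k := by
            rw [hb]; push_cast; ring
          rw [h1]
          calc (6 + 41 * (B : ℝ)) * k * (c * L / k) = c * (6 + 41 * (B : ℝ)) * L := by field_simp
            _ ≤ 1 / 4 * L := by
                apply mul_le_mul_of_nonneg_right _ hL0.le
                rw [le_div_iff₀ (by positivity)] at hcb
                linarith
            _ = L / 4 := by ring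
  have he1 : 1 ≤ Real.exp (L / 4) := Real.one_le_exp (by positivity)
  have hs4 : 4 ≤ √L := by
    apply Real.le_sqrt_of_sq_le
    linarith
  have hk4 : (k : ℝ) ≤ L / 4 := by nlinarith
  have h2e : 2 ≤ Real.exp (L / 4) := by
    have := Real.add_one_le_exp (L / 4)
    linarith
  calc (Qy y : ℝ) * (1 + (X / Qy y : ℝ) * (3 * Real.exp (-k)) + (z : ℝ) ^ (6 * k + 41 * b))
      = Qy y * (1 + (z : ℝ) ^ (6 * k + 41 * b)) + X * (3 * Real.exp (-k)) := by field_simp; ring
    _ ≤ Real.exp (L / 4) * (Real.exp (L / 4) + Real.exp (L / 4)) + X * (3 * Real.exp (-k)) := by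
        gcongr
    _ ≤ 4 * Real.exp (-k) * X := by
        have h1 : Real.exp (L / 4) * (Real.exp (L / 4) + Real.exp (L / 4)) ≤ Real.exp (-k) * X := by
          calc Real.exp (L / 4) * (Real.exp (L / 4) + Real.exp (L / 4)) = Real.exp (L / 4) * Real.exp (L / 4) * 2 := by ring
            _ ≤ Real.exp (L / 4) * Real.exp (L / 4) * Real.exp (L / 4) := by gcongr
            _ = Real.exp (-(L / 4)) * Real.exp L := by
                rw [← Real.exp_add, ← Real.exp_add, ← Real.exp_add]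
                congr 1
                ring
            _ ≤ Real.exp (-k) * X := by
                apply mul_le_mul _ hX (Real.exp_pos _).le (Real.exp_pos _).le
                exact Real.exp_le_exp.2 (by linarith)
        linarith

end Pool.Agent.H36.RW
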