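import Mathlib
import Pool.Agent.H36.RW.Disc3

/-!
Rough numbers in windows: all lengths at the same time, exceptional sets of proportion `exp (-k)`.
-/

set_option autoImplicit false

namespace Pool.Agent.H36.RW
open Finset Pool.Agent.H373R2.T7 Filter

/-- good blocks give good long windows -/
lemma long_good (z m T0 T n : ℕ) (V ε : ℝ) (hV0 : 0 < V) (hε : 0 < ε) (hε1 : ε ≤ 1) (hn : n = T / T0) (hT0 : 0 < T0)
    (hTT : (T0 : ℝ) ≤ ε / 4 * T)
    (hgood : ∀ j < n + 1, |(Rg z (m + j * T0) T0 : ℝ) - T0 * V| ≤ ε / 4 * (T0 * V)) :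
    |(Rg z m T : ℝ) - T * V| ≤ ε * (T * V) := by
  have hnT : n * T0 ≤ T := by rw [hn]; exact Nat.div_mul_le_self _ _
  have hnT' : T < (n + 1) * T0 := by
    rw [add_mul, one_mul, mul_comm, hn]
    exact Nat.lt_mul_div_succ T hT0 |>.trans_eq (by ring)
  have h1 := Rg_blocks z m T0 V (ε / 4) n (fun j hj => hgood j (by omega))
  have h2 := Rg_blocks z m T0 V (ε / 4) (n + 1) (fun j hj => hgood j (by omega))
  have h3 : (Rg z m (n * T0) : ℝ) ≤ Rg z m T := by
    exact_mod_cast Rg_mono _ _ _ _ hnT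
  have h4 : (Rg z m T : ℝ) ≤ Rg z m ((n + 1) * T0) := by
    exact_mod_cast Rg_mono _ _ _ _ hnT'.le
  push_cast at h2
  set x : ℝ := (Rg z m T : ℝ) with hx
  have hn1 : (n : ℝ) * T0 ≤ T := by exact_mod_cast hnT
  have hn2 : (T : ℝ) < (n + 1) * T0 := by exact_mod_cast hnT'
  have hT00 : (0 : ℝ) ≤ T := Nat.cast_nonneg T
  have ha := (abs_le.1 h1).1
  have hb := (abs_le.1 h2).2
  have hup : x ≤ (1 + ε) * (T * V) := by
    have h5 : (n + 1 : ℝ) * T0 ≤ (1 + ε / 4) * T := by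
      have : (n + 1 : ℝ) * T0 = n * T0 + T0 := by ring
      rw [this]
      linarith
    calc x ≤ (1 + ε / 4) * ((n + 1) * T0 * V) := by linarith
      _ ≤ (1 + ε / 4) * ((1 + ε / 4) * T * V) := by gcongr
      _ = (1 + ε / 4) * (1 + ε / 4) * (T * V) := by ring
      _ ≤ (1 + ε) * (T * V) := by
          apply mul_le_mul_of_nonneg_right _ (by positivity)
          nlinarith
  have hlo : (1 - ε) * (T * V) ≤ x := by
    have h5 : (1 - ε / 4) * T ≤ n * T0 := by
      have : (n + 1 : ℝ) * T0 = n * T0 + T0 := by ring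
      rw [this] at hn2
      linarith
    calc (1 - ε) * (T * V) ≤ (1 - ε / 4) * (1 - ε / 4) * (T * V) := by
          apply mul_le_mul_of_nonneg_right _ (by positivity)
          nlinarith
      _ = (1 - ε / 4) * ((1 - ε / 4) * T * V) := by ring
      _ ≤ (1 - ε / 4) * (n * T0 * V) := by
          apply mul_le_mul_of_nonneg_left _ (by linarith)
          exact mul_le_mul_of_nonneg_right h5 hV0.le
      _ ≤ x := by linarith
  rw [abs_le]
  constructor <;> linarith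

lemma zk_three (c L : ℝ) (k : ℕ) : zk c L (3 * k) = zk (c / 3) L k := by
  unfold zk
  congr 2
  push_cast
  rw [div_mul_eq_mul_div, div_div]

open Classical in
theorem disc_all_k (δ ε : ℝ) (hδ : 0 < δ) (hε : 0 < ε) (hε1 : ε ≤ 1) :
    ∃ c C η : ℝ, 0 < c ∧ 0 < C ∧ 0 < η ∧ ∀ᶠ L : ℝ in atTop, ∀ k : ℕ, 1 ≤ k → (k : ℝ) ≤ L ^ η →
      ∀ X : ℕ, Real.exp L ≤ X →
      ∀ q r : ℕ, (∀ p : ℕ, p.Prime → Real.log L < p → p ≤ zk c L k → ¬ p ∣ q) →
      (((Icc 1 X).filter (fun l => ∃ T : ℕ, δ * L ≤ T ∧ (T : ℝ) ≤ Real.exp k * L ∧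
        Bad ε (zk c L k) (q * l + r) T)).card : ℝ) ≤ C * Real.exp (-k) * X := by
  set δ1 : ℝ := δ * ε / 8 with hδ1
  have hδ10 : 0 < δ1 := by positivity
  obtain ⟨c0, η0, hc0, hη0, hη1, hd⟩ := disc_k δ1 (ε / 4) hδ10 (by positivity) (by linarith)
  refine ⟨c0 / 3, 4 * (1 / δ1 + 1), η0 / 2, by positivity, by positivity, by positivity, ?_⟩
  filter_upwards [hd c0 hc0 le_rfl, eventually_ge_atTop (2 : ℝ), eventually_ge_atTop (1 / δ1),
    (tendsto_rpow_atTop (show (0 : ℝ) < η0 / 2 by positivity)).eventually_ge_atTop 3] with L h hL2' hL2 hL3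
  intro k hk1 hk2 X hX q r hq
  have hL1 : 1 ≤ L := by linarith
  have hL0 : 0 < L := by linarith
  have hLδ : 1 ≤ δ1 * L := by
    rw [div_le_iff₀ hδ10] at hL2
    linarith
  rw [← zk_three] at hq ⊢
  have hk3 : ((3 * k : ℕ) : ℝ) ≤ L ^ η0 := by
    have e1 : L ^ η0 = L ^ (η0 / 2) * L ^ (η0 / 2) := by
      rw [← Real.rpow_add hL0]
      congr 1
      ring
    rw [e1]
    push_cast
    exact mul_le_mul hL3 hk2 (Nat.cast_nonneg _) (by positivity)
  set z := zk c0 L (3 * k) with hz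
  set T0 : ℕ := ⌈δ1 * L⌉₊ with hT0
  have hT0a : δ1 * L ≤ T0 := Nat.le_ceil _
  have hT0b : (T0 : ℝ) < δ1 * L + 1 := Nat.ceil_lt_add_one (by positivity)
  have hT01 : (1 : ℝ) ≤ T0 := by linarith
  have hT0r : (0 : ℝ) < T0 := by linarith
  have hT0n : 0 < T0 := by exact_mod_cast hT0r
  set V := Vz z with hV
  have hV0 : 0 < V := Vz_pos _
  set J : ℕ := ⌊Real.exp k / δ1⌋₊ with hJ
  have hJle : (J : ℝ) ≤ Real.exp k / δ1 := Nat.floor_le (by positivity)
  have hblock : ∀ j : ℕ, (((Icc 1 X).filter (fun l => Bad (ε / 4) z (q * l + (r + j * T0)) T0)).card : ℝ) ≤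
      4 * Real.exp (-((3 * k : ℕ) : ℝ)) * X := fun j => h (3 * k) (by omega) hk3 X hX T0 hT0a (by linarith) q (r + j * T0) hq
  have hsub : ((Icc 1 X).filter (fun l => ∃ T : ℕ, δ * L ≤ T ∧ (T : ℝ) ≤ Real.exp k * L ∧ Bad ε z (q * l + r) T)) ⊆
      (range (J + 1)).biUnion (fun j => (Icc 1 X).filter (fun l => Bad (ε / 4) z (q * l + (r + j * T0)) T0)) := by
    intro l hl
    rw [mem_filter] at hl
    obtain ⟨hl1, T, hT1, hT2, hbad⟩ := hl
    by_contra hno
    have hgood : ∀ j < J + 1, |(Rg z (q * l + r + j * T0) T0 : ℝ) - T0 * V| ≤ ε / 4 * (T0 * V) := by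
      intro j hj
      by_contra h3
      apply hno
      rw [mem_biUnion]
      refine ⟨j, mem_range.2 hj, ?_⟩
      rw [mem_filter]
      refine ⟨hl1, ?_⟩
      unfold Bad
      rw [← add_assoc]
      exact not_le.1 h3
    have hTT : (T0 : ℝ) ≤ ε / 4 * T := by
      have h5 : ε / 4 * (δ * L) ≤ ε / 4 * T := mul_le_mul_of_nonneg_left hT1 (by positivity)
      have h6 : ε / 4 * (δ * L) = 2 * (δ1 * L) := by rw [hδ1]; ring
      linarith
    have hnJ : T / T0 ≤ J := by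
      rw [hJ]
      apply Nat.le_floor
      have h1 : ((T / T0 : ℕ) : ℝ) ≤ (T : ℝ) / T0 := Nat.cast_div_le
      refine h1.trans ?_
      rw [div_le_div_iff₀ hT0r hδ10]
      calc (T : ℝ) * δ1 ≤ Real.exp k * L * δ1 := mul_le_mul_of_nonneg_right hT2 hδ10.le
        _ = Real.exp k * (δ1 * L) := by ring
        _ ≤ Real.exp k * T0 := mul_le_mul_of_nonneg_left hT0a (Real.exp_pos _).le
    have h5 := long_good z (q * l + r) T0 T (T / T0) V ε hV0 hε hε1 rfl hT0n hTT (fun j hj => hgood j (by omega))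
    unfold Bad at hbad
    exact absurd hbad (not_lt.2 h5)
  have hcard : (((Icc 1 X).filter (fun l => ∃ T : ℕ, δ * L ≤ T ∧ (T : ℝ) ≤ Real.exp k * L ∧ Bad ε z (q * l + r) T)).card : ℝ) ≤
      ∑ j ∈ range (J + 1), (((Icc 1 X).filter (fun l => Bad (ε / 4) z (q * l + (r + j * T0)) T0)).card : ℝ) := by
    have h1 := (card_le_card hsub).trans card_biUnion_le
    exact_mod_cast h1
  refine hcard.trans ((sum_le_sum fun j _ => hblock j).trans ?_)
  rw [sum_const, card_range, nsmul_eq_mul]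
  push_cast
  have hX0 : (0 : ℝ) < X := (Real.exp_pos L).trans_le hX
  have hek : 1 ≤ Real.exp (k : ℝ) := Real.one_le_exp (Nat.cast_nonneg _)
  have h1 : (J : ℝ) + 1 ≤ (1 / δ1 + 1) * Real.exp k := by
    have : Real.exp k / δ1 = 1 / δ1 * Real.exp k := by ring
    rw [this] at hJle
    linarith
  calc ((J : ℝ) + 1) * (4 * Real.exp (-(3 * (k : ℝ))) * X) ≤ ((1 / δ1 + 1) * Real.exp k) * (4 * Real.exp (-(3 * (k : ℝ))) * X) := by
        gcongr
    _ = 4 * (1 / δ1 + 1) * (Real.exp k * Real.exp (-(3 * (k : ℝ)))) * X := by ring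
    _ ≤ 4 * (1 / δ1 + 1) * Real.exp (-k) * X := by
        gcongr
        rw [← Real.exp_add]
        apply Real.exp_le_exp.2
        have : (0 : ℝ) ≤ k := Nat.cast_nonneg k
        linarith

end Pool.Agent.H36.RW
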